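import Pool.Agent.Lib.MP_15cfc2_co.Basic

open MeasureTheory Set Metric Module
open scoped ENNReal Pointwise

namespace Pool.Agent.MP15cfc2

variable {d k : ℕ}

/-- An affine isomorphism between finite-dimensional Euclidean spaces scales volume by a constant. -/
lemma exists_scale {V W : Type*} [NormedAddCommGroup V] [InnerProductSpace ℝ V]
    [FiniteDimensional ℝ V] [MeasurableSpace V] [BorelSpace V]
    [NormedAddCommGroup W] [InnerProductSpace ℝ W]
    [FiniteDimensional ℝ W] [MeasurableSpace W] [BorelSpace W] (e : V ≃ₗ[ℝ] W) (p : W) :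
    ∃ c : ℝ≥0∞, c ≠ 0 ∧ c ≠ ∞ ∧ ∀ S : Set W, volume ((fun y => e y + p) ⁻¹' S) = c * volume S := by
  let g : V ≃ₜ W := e.toContinuousLinearEquiv.toHomeomorph.trans (Homeomorph.addRight p)
  let g' : V ≃ᵐ W := g.toMeasurableEquiv
  have hg : ∀ y, g' y = e y + p := fun y => rfl
  let μ : Measure W := Measure.map e.toContinuousLinearEquiv volume
  have hμ : μ.IsAddHaarMeasure :=
    e.toContinuousLinearEquiv.isAddHaarMeasure_map (volume : Measure V)
  have hmap : Measure.map g' volume = μ := by
    have h1 : Measure.map g' volume = Measure.map (fun w => w + p) μ := by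
      rw [Measure.map_map (by fun_prop) (by fun_prop)]
      rfl
    rw [h1]
    exact map_add_right_eq_self μ p
  refine ⟨μ.addHaarScalarFactor volume, ?_, ?_, ?_⟩
  · have := Measure.addHaarScalarFactor_pos_of_isAddHaarMeasure μ (volume : Measure W)
    exact_mod_cast this.ne'
  · exact ENNReal.coe_ne_top
  · intro S
    have h2 : μ = μ.addHaarScalarFactor volume • (volume : Measure W) :=
      Measure.isAddLeftInvariant_eq_smul μ volume
    have h3 : volume ((fun y => e y + p) ⁻¹' S) = μ S := by
      rw [← hmap, MeasurableEquiv.map_apply]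
      rfl
    rw [h3]
    conv_lhs => rw [h2]
    rw [Measure.smul_apply]
    rfl

/-- Pulling back a cylinder by an affine isomorphism gives a cylinder, with the corresponding
cross-sectional volume. -/
lemma exists_pullback (C : Cylinder d k) (f : E d ≃ᵃ[ℝ] E d) :
    ∃ C' : Cylinder d k, C'.toSet = f ⁻¹' C.toSet ∧
      ∀ K : Set (E d), C'.crv K = C.crv (f '' K) := by
  classical
  let A : E d ≃ₗ[ℝ] E d := f.linear
  let H' : Submodule ℝ (E d) := C.H.comap A.toLinearMap
  have hH' : finrank ℝ H' = k := by
    have h1 : H' = C.H.map A.symm.toLinearMap := by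
      ext x
      simp [H', Submodule.mem_map_equiv]
    rw [h1]
    exact (LinearEquiv.finrank_map_eq A.symm C.H).trans C.finrank_H
  let L : E d →ₗ[ℝ] C.Hᗮ := C.Hᗮ.orthogonalProjectionOnto.toLinearMap ∘ₗ A.toLinearMap
  have hL : ∀ x, L x = C.Hᗮ.orthogonalProjectionOnto (A x) := fun x => rfl
  have hker : ∀ x ∈ H', L x = 0 := by
    intro x hx
    rw [hL, Submodule.orthogonalProjectionOnto_eq_zero_iff, Submodule.orthogonal_orthogonal]
    exact hx
  have hker' : ∀ x, L x = 0 → x ∈ H' := by
    intro x hx
    rw [hL, Submodule.orthogonalProjectionOnto_eq_zero_iff, Submodule.orthogonal_orthogonal] at hx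
    exact hx
  let l : H'ᗮ →ₗ[ℝ] C.Hᗮ := L.domRestrict H'ᗮ
  have hl : ∀ y : H'ᗮ, l y = L y := fun y => rfl
  have hinj : Function.Injective l := by
    rw [injective_iff_map_eq_zero]
    intro y hy
    rw [hl] at hy
    have h1 := hker' _ hy
    have h2 : (y : E d) ∈ H' ⊓ H'ᗮ := ⟨h1, y.2⟩
    rw [Submodule.inf_orthogonal_eq_bot] at h2
    exact Subtype.ext (by simpa using h2)
  have hfr : finrank ℝ H'ᗮ = finrank ℝ C.Hᗮ := by
    rw [finrank_orth H' hH', finrank_orth C.H C.finrank_H]
  let e : H'ᗮ ≃ₗ[ℝ] C.Hᗮ := LinearMap.linearEquivOfInjective l hinj hfr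
  have he : ∀ y : H'ᗮ, e y = L y := fun y => by
    simp [e, hl]
  let p0 : C.Hᗮ := C.Hᗮ.orthogonalProjectionOnto (f 0)
  have key : ∀ x : E d, e (H'ᗮ.orthogonalProjectionOnto x) + p0
      = C.Hᗮ.orthogonalProjectionOnto (f x) := by
    intro x
    have h1 : f x = A x + f 0 := by
      have := f.map_vadd 0 x
      simpa using this
    rw [h1, map_add, he]
    congr 1
    have h2 : L (x - (H'ᗮ.orthogonalProjectionOnto x : E d)) = 0 := by
      apply hker
      have h3 : x - (H'ᗮ.orthogonalProjectionOnto x : E d) = H'.orthogonalProjectionOnto x := by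
        rw [sub_eq_iff_eq_add]
        exact (H'.starProjection_add_starProjection_orthogonal x).symm
      rw [h3]
      exact Subtype.mem _
    rw [map_sub, sub_eq_zero] at h2
    rw [← h2, hL]
  obtain ⟨c, hc0, hct, hc⟩ := exists_scale e p0
  have hmeas : NullMeasurableSet ((fun y => e y + p0) ⁻¹' C.B) volume := by
    refine C.measurable_B.preimage ?_
    refine ⟨?_, ?_⟩
    · have : Continuous fun y => e y + p0 :=
        (e.toContinuousLinearEquiv.continuous).add continuous_const
      exact this.measurable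
    · intro S hS
      have hcont : Measurable fun y => e y + p0 :=
        ((e.toContinuousLinearEquiv.continuous).add continuous_const).measurable
      let T := toMeasurable volume S
      have hT : volume T = 0 := by rw [measure_toMeasurable]; exact hS
      have : (Measure.map (fun y => e y + p0) volume) T = 0 := by
        rw [Measure.map_apply hcont (measurableSet_toMeasurable _ _), hc, hT, mul_zero]
      exact measure_mono_null (subset_toMeasurable _ _) this
  refine ⟨⟨H', hH', (fun y => e y + p0) ⁻¹' C.B, hmeas⟩, ?_, ?_⟩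
  · rw [Cylinder.toSet_eq, Cylinder.toSet_eq]
    ext x
    simp only [Set.mem_ofPred_eq, Set.mem_preimage]
    rw [key]
  · intro K
    unfold Cylinder.crv
    have h1 : (H'ᗮ.orthogonalProjectionOnto '' K)
        = (fun y => e y + p0) ⁻¹' (C.Hᗮ.orthogonalProjectionOnto '' (f '' K)) := by
      ext y
      constructor
      · rintro ⟨x, hx, rfl⟩
        exact ⟨f x, ⟨x, hx, rfl⟩, (key x).symm⟩
      · rintro ⟨_, ⟨x, hx, rfl⟩, h⟩
        refine ⟨x, hx, ?_⟩
        rw [← key x] at h
        exact e.injective (add_right_cancel h)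
    simp only
    rw [h1, hc, hc]
    exact ENNReal.mul_div_mul_left _ _ hc0 hct

end Pool.Agent.MP15cfc2
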