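import Pool.Agent.Lib.MP_15cfc2_co.Rot

open MeasureTheory Set Metric Module Filter
open scoped ENNReal Pointwise Topology

namespace Pool.Agent.MP15cfc2

variable {d : ℕ}

/-- inverse action, as a function -/
noncomputable def act (g : G d) (x : E d) : E d := ((g⁻¹ : G d) : E d →L[ℝ] E d) x

lemma measurable_act2 : Measurable fun p : G d × E d => act p.1 p.2 := by
  apply Continuous.measurable
  exact continuous_act

lemma norm_act' (g : G d) (x : E d) : ‖act g x‖ = ‖x‖ := norm_act _ _

lemma act_smul (g : G d) (t : ℝ) (x : E d) : act g (t • x) = t • act g x := by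
  simp [act]

lemma act_mul (g h : G d) (x : E d) : act (h * g) ((h : E d →L[ℝ] E d) x) = act g x := by
  unfold act
  rw [mul_inv_rev]
  have : ((g⁻¹ * h⁻¹ : G d) : E d →L[ℝ] E d) ((h : E d →L[ℝ] E d) x) =
      ((g⁻¹ * h⁻¹ * h : G d) : E d →L[ℝ] E d) x := rfl
  rw [this, inv_mul_cancel_right]

lemma measurePreserving_act (g : G d) : MeasurePreserving (act g) (volume : Measure (E d)) volume := by
  have h := (Unitary.linearIsometryEquiv g⁻¹).measurePreserving
  exact h

lemma exists_rotation {U C₀ : Set (E d)} (hd : 1 ≤ d) (hU : MeasurableSet U)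
    (hUb : volume U ≠ ∞) (hC : MeasurableSet C₀)
    (hcone : ∀ x, ∀ t : ℝ, 0 < t → (t • x ∈ C₀ ↔ x ∈ C₀)) :
    ∃ g : G d, volume U * volume (ball (0 : E d) 1 ∩ C₀) ≤
      volume (ball (0 : E d) 1) * volume (U ∩ {x | act g x ∈ C₀}) := by
  let q : E d → ℝ≥0∞ := fun x => haarG d {g | act g x ∈ C₀}
  have hq1 : ∀ (h : G d) (x : E d), q ((h : E d →L[ℝ] E d) x) = q x := by
    intro h x
    have h1 : {g : G d | act g ((h : E d →L[ℝ] E d) x) ∈ C₀} =
        (fun g => h⁻¹ * g) ⁻¹' {g | act g x ∈ C₀} := by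
      ext g
      simp only [Set.mem_ofPred_eq, Set.mem_preimage]
      have := act_mul (h⁻¹ * g) h x
      rw [mul_inv_cancel_left] at this
      rw [this]
    simp only [q]
    rw [h1, measure_preimage_mul]
  have hq2 : ∀ (t : ℝ) (x : E d), 0 < t → q (t • x) = q x := by
    intro t x ht
    simp only [q, act_smul, hcone _ t ht]
  have hq3 : ∀ x y : E d, x ≠ 0 → y ≠ 0 → q x = q y := by
    intro x y hx hy
    have hx' : 0 < ‖x‖ := norm_pos_iff.2 hx
    have hy' : 0 < ‖y‖ := norm_pos_iff.2 hy
    obtain ⟨h, hh⟩ := exists_act (x := (‖y‖ / ‖x‖) • x) (y := y) (by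
      rw [norm_smul, Real.norm_eq_abs, abs_of_pos (by positivity)]
      field_simp)
    rw [← hh, hq1, hq2 _ _ (by positivity)]
  have hnt : Nontrivial (E d) := Module.nontrivial_of_finrank_pos (R := ℝ) (by simp; omega)
  obtain ⟨e, he⟩ := exists_ne (0 : E d)
  set q0 := q e with hq0
  have hFm : MeasurableSet {p : G d × E d | act p.1 p.2 ∈ C₀} := measurable_act2 hC
  have key : ∀ V : Set (E d), MeasurableSet V → volume V ≠ ∞ →
      q0 * volume V = ∫⁻ g, volume (V ∩ {x | act g x ∈ C₀}) ∂(haarG d) := by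
    intro V hV hVb
    have : IsFiniteMeasure (volume.restrict V) := ⟨by
      rw [Measure.restrict_apply_univ]; exact lt_top_iff_ne_top.2 hVb⟩
    have h1 : ((haarG d).prod (volume.restrict V)) {p : G d × E d | act p.1 p.2 ∈ C₀} =
        ∫⁻ x, q x ∂(volume.restrict V) := by
      rw [Measure.prod_apply_symm hFm]
      rfl
    have h2 : ((haarG d).prod (volume.restrict V)) {p : G d × E d | act p.1 p.2 ∈ C₀} =
        ∫⁻ g, volume (V ∩ {x | act g x ∈ C₀}) ∂(haarG d) := by
      rw [Measure.prod_apply hFm]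
      apply lintegral_congr
      intro g
      have hm : MeasurableSet {x | act g x ∈ C₀} := (measurePreserving_act g).measurable hC
      have : (Prod.mk g ⁻¹' {p : G d × E d | act p.1 p.2 ∈ C₀}) = {x | act g x ∈ C₀} := rfl
      rw [this, Measure.restrict_apply hm, Set.inter_comm]
    rw [← h2, h1]
    have h3 : ∀ᵐ x ∂(volume.restrict V), q x = q0 := by
      apply ae_restrict_of_ae
      have : ∀ᵐ x ∂(volume : Measure (E d)), x ≠ 0 := by
        rw [ae_iff]
        simp
      filter_upwards [this] with x hx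
      exact hq3 x e hx he
    rw [lintegral_congr_ae h3, lintegral_const, Measure.restrict_apply_univ]
  have hball : q0 * volume (ball (0 : E d) 1) = volume (ball (0 : E d) 1 ∩ C₀) := by
    rw [key _ measurableSet_ball measure_ball_lt_top.ne]
    have h4 : ∀ g : G d, volume (ball (0 : E d) 1 ∩ {x | act g x ∈ C₀}) =
        volume (ball (0 : E d) 1 ∩ C₀) := by
      intro g
      rw [← (measurePreserving_act g).measure_preimage
        (measurableSet_ball.inter hC).nullMeasurableSet]
      congr 1
      ext x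
      simp [norm_act']
    rw [lintegral_congr h4, lintegral_const, measure_univ, mul_one]
  have hfin : ∫⁻ g, volume (U ∩ {x | act g x ∈ C₀}) ∂(haarG d) ≠ ∞ := by
    rw [← key U hU hUb]
    exact ENNReal.mul_ne_top (measure_ne_top _ _) hUb
  obtain ⟨g, hg⟩ := exists_lintegral_le hfin
  refine ⟨g, ?_⟩
  rw [← key U hU hUb] at hg
  calc volume U * volume (ball (0 : E d) 1 ∩ C₀)
      = volume (ball (0 : E d) 1) * (q0 * volume U) := by rw [← hball]; ring
    _ ≤ _ := by gcongr

/-- Greedy choice: after `N` steps the uncovered part of the unit ball has volume at most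
`(1 - p) ^ N` times that of the ball. -/
lemma exists_greedy {C₀ : Set (E d)} (hd : 1 ≤ d) (hC : MeasurableSet C₀)
    (hcone : ∀ x, ∀ t : ℝ, 0 < t → (t • x ∈ C₀ ↔ x ∈ C₀)) {p : ℝ} (hp0 : 0 ≤ p) (hp1 : p ≤ 1)
    (hp : p * (volume (ball (0 : E d) 1)).toReal ≤ (volume (ball (0 : E d) 1 ∩ C₀)).toReal)
    (N : ℕ) : ∃ g : Fin N → G d,
      (volume {x ∈ ball (0 : E d) 1 | ∀ i, act (g i) x ∉ C₀}).toReal ≤
        (1 - p) ^ N * (volume (ball (0 : E d) 1)).toReal := by
  induction N with
  | zero =>
    refine ⟨fun i => i.elim0, ?_⟩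
    rw [pow_zero, one_mul]
    apply ENNReal.toReal_mono measure_ball_lt_top.ne
    exact measure_mono (fun x hx => hx.1)
  | succ n ih =>
    obtain ⟨g, hg⟩ := ih
    set U := {x ∈ ball (0 : E d) 1 | ∀ i, act (g i) x ∉ C₀} with hU
    have hUm : MeasurableSet U := by
      have : U = ball (0 : E d) 1 ∩ ⋂ i, (act (g i) ⁻¹' C₀)ᶜ := by
        ext x; simp [hU]
      rw [this]
      apply measurableSet_ball.inter
      apply MeasurableSet.iInter
      intro i
      exact ((measurePreserving_act (g i)).measurable hC).compl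
    have hUb : volume U ≠ ∞ :=
      ne_top_of_le_ne_top measure_ball_lt_top.ne (measure_mono (Set.inter_subset_left))
    obtain ⟨g', hg'⟩ := exists_rotation hd hUm hUb hC hcone
    have hB : volume (ball (0 : E d) 1) ≠ ∞ := measure_ball_lt_top.ne
    have hBpos : 0 < (volume (ball (0 : E d) 1)).toReal :=
      ENNReal.toReal_pos (measure_ball_pos _ _ one_pos).ne' hB
    have hUi : volume (U ∩ {x | act g' x ∈ C₀}) ≠ ∞ :=
      ne_top_of_le_ne_top hUb (measure_mono Set.inter_subset_left)
    have h1 := (ENNReal.toReal_le_toReal (ENNReal.mul_ne_top hUb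
      (ne_top_of_le_ne_top hB (measure_mono Set.inter_subset_left)))
      (ENNReal.mul_ne_top hB hUi)).2 hg'
    rw [ENNReal.toReal_mul, ENNReal.toReal_mul] at h1
    have h2 : p * (volume U).toReal ≤ (volume (U ∩ {x | act g' x ∈ C₀})).toReal := by
      have h3 : (volume U).toReal * (p * (volume (ball (0 : E d) 1)).toReal) ≤
          (volume (ball (0 : E d) 1)).toReal * (volume (U ∩ {x | act g' x ∈ C₀})).toReal :=
        (mul_le_mul_of_nonneg_left hp ENNReal.toReal_nonneg).trans h1
      have h4 : (volume (ball (0 : E d) 1)).toReal * (p * (volume U).toReal) ≤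
          (volume (ball (0 : E d) 1)).toReal * (volume (U ∩ {x | act g' x ∈ C₀})).toReal := by
        linarith
      exact le_of_mul_le_mul_left h4 hBpos
    refine ⟨Fin.snoc g g', ?_⟩
    have h5 : {x ∈ ball (0 : E d) 1 | ∀ i : Fin (n + 1), act ((Fin.snoc g g' : Fin (n+1) → G d) i) x ∉ C₀} =
        U \ (U ∩ {x | act g' x ∈ C₀}) := by
      ext x
      simp only [hU, Set.mem_sdiff, Set.mem_inter_iff, Set.mem_ofPred_eq, not_and]
      constructor
      · rintro ⟨hx, h⟩
        refine ⟨⟨hx, fun i => ?_⟩, fun _ => ?_⟩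
        · simpa using h i.castSucc
        · simpa using h (Fin.last n)
      · rintro ⟨⟨hx, h⟩, h'⟩
        refine ⟨hx, fun i => ?_⟩
        refine Fin.lastCases ?_ (fun j => ?_) i
        · simpa using h' ⟨hx, h⟩
        · simpa using h j
    rw [h5]
    have hm : MeasurableSet (U ∩ {x | act g' x ∈ C₀}) :=
      hUm.inter ((measurePreserving_act g').measurable hC)
    rw [measure_sdiff Set.inter_subset_left hm.nullMeasurableSet hUi,
      ENNReal.toReal_sub_of_le (measure_mono Set.inter_subset_left) hUb]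
    calc (volume U).toReal - (volume (U ∩ {x | act g' x ∈ C₀})).toReal
        ≤ (1 - p) * (volume U).toReal := by linarith
      _ ≤ (1 - p) * ((1 - p) ^ n * (volume (ball (0 : E d) 1)).toReal) :=
          mul_le_mul_of_nonneg_left hg (by linarith)
      _ = _ := by ring

end Pool.Agent.MP15cfc2
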