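import Mathlib

open MeasureTheory Set Metric Module
open scoped ENNReal Pointwise

namespace Pool.Agent.MP15cfc2

/-- Euclidean `d`-space `𝔼^d`. -/
abbrev E (d : ℕ) := EuclideanSpace ℝ (Fin d)

/-- A `k`-codimensional cylinder of `𝔼^d`: a linear subspace `H` of dimension `k` together with a
(Lebesgue) measurable base `B`, a subset of the orthogonal complement `Hᗮ`. -/
structure Cylinder (d k : ℕ) where
  /-- the direction space -/
  H : Submodule ℝ (E d)
  /-- it has dimension `k` -/
  finrank_H : finrank ℝ H = k
  /-- the base, a subset of the orthogonal complement -/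
  B : Set Hᗮ
  /-- the base is Lebesgue measurable -/
  measurable_B : NullMeasurableSet B volume

namespace Cylinder

variable {d k : ℕ}

/-- The cylinder as a point set, the Minkowski sum `H + B`. -/
def toSet (C : Cylinder d k) : Set (E d) :=
  (C.H : Set (E d)) + (Subtype.val '' C.B)

/-- The cross-sectional volume of `C` relative to `K`: the ratio of the `(d-k)`-dimensional
Lebesgue measures of the base and of the orthogonal projection of `K` to `Hᗮ`. -/
noncomputable def crv (C : Cylinder d k) (K : Set (E d)) : ℝ≥0∞ :=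
  volume C.B / volume (C.Hᗮ.orthogonalProjectionOnto '' K)

end Cylinder

/-- An ellipsoid: the image of the closed unit ball under an invertible affine map. -/
def IsEllipsoid {d : ℕ} (K : Set (E d)) : Prop :=
  ∃ f : E d ≃ᵃ[ℝ] E d, K = f '' closedBall 0 1

/-- `c` is admissible for `(d, k)`: whenever finitely many `k`-codimensional cylinders cover an
ellipsoid `K` of `𝔼^d`, their total cross-sectional volume relative to `K` is at least `c`. -/
def Admissible (d k : ℕ) (c : ℝ) : Prop :=
  ∀ K : Set (E d), IsEllipsoid K → ∀ (N : ℕ) (C : Fin N → Cylinder d k),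
    K ⊆ ⋃ i, (C i).toSet → ENNReal.ofReal c ≤ ∑ i, (C i).crv K

/-! ### Basic facts -/

variable {d k : ℕ}

lemma Cylinder.toSet_eq (C : Cylinder d k) :
    C.toSet = {x | C.Hᗮ.orthogonalProjectionOnto x ∈ C.B} := by
  ext x
  simp only [Cylinder.toSet, Set.mem_add, Set.mem_image, Set.mem_ofPred_eq]
  constructor
  · rintro ⟨h, hh, b, ⟨y, hy, rfl⟩, rfl⟩
    have h1 : C.Hᗮ.orthogonalProjectionOnto h = 0 := by
      rw [Submodule.orthogonalProjectionOnto_eq_zero_iff]
      rw [Submodule.orthogonal_orthogonal]
      exact hh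
    rw [map_add, h1, zero_add]
    simpa using hy
  · intro hx
    refine ⟨C.H.orthogonalProjectionOnto x, Subtype.mem _, C.Hᗮ.orthogonalProjectionOnto x,
      ⟨_, hx, rfl⟩, ?_⟩
    exact C.H.starProjection_add_starProjection_orthogonal x

/-- Orthogonal splitting `𝔼^d ≃ H × Hᗮ` preserves volume. -/
lemma measurePreserving_split (H : Submodule ℝ (E d)) :
    MeasurePreserving (fun x : E d => (H.orthogonalProjectionOnto x, Hᗮ.orthogonalProjectionOnto x))
      volume (volume.prod volume) := by
  have h := (WithLp.volume_preserving_ofLp H Hᗮ).comp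
    (H.orthogonalDecomposition.measurePreserving)
  have e : (fun x : E d => (H.orthogonalProjectionOnto x, Hᗮ.orthogonalProjectionOnto x)) =
      WithLp.ofLp ∘ H.orthogonalDecomposition := by
    funext x
    simp
  rw [e]
  exact h

lemma norm_sq_split (H : Submodule ℝ (E d)) (x : E d) :
    ‖x‖ ^ 2 = ‖H.orthogonalProjectionOnto x‖ ^ 2 + ‖Hᗮ.orthogonalProjectionOnto x‖ ^ 2 := by
  rw [H.norm_sq_eq_add_norm_sq_projection x]

lemma finrank_orth (H : Submodule ℝ (E d)) (hH : finrank ℝ H = k) :
    finrank ℝ Hᗮ = d - k := by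
  have h := H.finrank_add_finrank_orthogonal
  rw [hH, finrank_euclideanSpace_fin] at h
  omega

/-- The projection of the unit ball is the unit ball. -/
lemma proj_image_closedBall (H : Submodule ℝ (E d)) :
    H.orthogonalProjectionOnto '' closedBall (0 : E d) 1 = closedBall (0 : H) 1 := by
  ext y
  constructor
  · rintro ⟨x, hx, rfl⟩
    rw [mem_closedBall_zero_iff] at hx ⊢
    exact (H.norm_orthogonalProjectionOnto_apply_le x).trans hx
  · intro hy
    refine ⟨(y : E d), ?_, by simp⟩
    rw [mem_closedBall_zero_iff] at hy ⊢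
    simpa using hy

end Pool.Agent.MP15cfc2
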