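import Mathlib

open MeasureTheory

namespace Pool.Agent.EllipsoidCylinders

/-- Euclidean `d`-space `𝔼^d`. -/
abbrev E (d : ℕ) := EuclideanSpace ℝ (Fin d)

/-- The linear subspaces of `𝔼^d`. -/
abbrev LinSub (d : ℕ) := Submodule ℝ (E d)

/-- The orthogonal complement `Hᗮ` of a linear subspace `H`. -/
noncomputable def orth {d : ℕ} (H : LinSub d) : LinSub d := Hᗮ

/-- The orthogonal projection of a set `K` to a linear subspace `V`: all points `y` of `V` such that
`x - y` is orthogonal to `V` for some point `x` of `K`. -/
def projImage {d : ℕ} (V : LinSub d) (K : Set (E d)) : Set V :=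
  {y | ∃ x ∈ K, x - (y : E d) ∈ orth V}

/-- Lebesgue measure of a linear subspace `V` (of the dimension of `V`), with the Euclidean
structure inherited from `𝔼^d`. -/
noncomputable def leb {d : ℕ} (V : LinSub d) : Measure V := volume

/-- Lebesgue measure of a subset of `V`. -/
noncomputable def vol {d : ℕ} (V : LinSub d) (S : Set V) : ENNReal := leb V S

/-- Lebesgue measurability of a subset of `V`. -/
def LebMeasurable {d : ℕ} (V : LinSub d) (S : Set V) : Prop := NullMeasurableSet S (leb V)

/-- The dimension of a linear subspace. -/
noncomputable def dim {d : ℕ} (V : LinSub d) : ℕ := Module.finrank ℝ V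

/-- A `k`-codimensional cylinder of `𝔼^d`: a linear subspace `H` of dimension `k` together with a
Lebesgue measurable base `B`, a subset of the orthogonal complement of `H`. -/
structure Cylinder (d k : ℕ) where
  /-- the direction space -/
  H : LinSub d
  /-- it has dimension `k` -/
  dim_H : dim H = k
  /-- the base, a subset of the orthogonal complement -/
  B : Set (orth H)
  /-- the base is Lebesgue measurable -/
  measurable_B : LebMeasurable (orth H) B

/-- The cylinder as a point set: `H + B`. -/
def Cylinder.toSet {d k : ℕ} (C : Cylinder d k) : Set (E d) :=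
  {x | ∃ h ∈ C.H, ∃ b ∈ C.B, h + (b : E d) = x}

/-- The cross-sectional volume of `C` relative to `K`: the Lebesgue measure of the base divided by
the Lebesgue measure of the orthogonal projection of `K` to the orthogonal complement of `H`. -/
noncomputable def Cylinder.crv {d k : ℕ} (C : Cylinder d k) (K : Set (E d)) : ENNReal :=
  vol (orth C.H) C.B / vol (orth C.H) (projImage (orth C.H) K)

/-- The closed unit ball of `𝔼^d`. -/
def unitBall (d : ℕ) : Set (E d) := Metric.closedBall 0 1

/-- The invertible affine maps of `𝔼^d`. -/
abbrev AffIso (d : ℕ) := E d ≃ᵃ[ℝ] E d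

/-- An ellipsoid: the image of the closed unit ball under an invertible affine map. -/
def IsEllipsoid {d : ℕ} (K : Set (E d)) : Prop :=
  ∃ f : AffIso d, K = (fun x => f x) '' unitBall d

/-- `c` is admissible for `(d, k)`: whenever finitely many `k`-codimensional cylinders have a union
containing an ellipsoid `K` of `𝔼^d`, their total cross-sectional volume relative to `K` is at
least `c`. The constant `c(d,k)` is the largest admissible real number. -/
def Admissible (d k : ℕ) (c : ℝ) : Prop :=
  ∀ K : Set (E d), IsEllipsoid K → ∀ (N : ℕ) (C : Fin N → Cylinder d k),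
    K ⊆ (⋃ i, (C i).toSet) → ENNReal.ofReal c ≤ ∑ i, (C i).crv K

/-- The set of admissible real numbers; `c(d,k)` is its greatest element. -/
def admissibleSet (d k : ℕ) : Set ℝ := {c | Admissible d k c}

end Pool.Agent.EllipsoidCylinders
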