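import Pool.Agent.Lib.MP_15cfc2_co.Greatest
import Pool.Agent.Lib.MP_15cfc2_co.Defs

open MeasureTheory Set Metric Module Filter
open scoped ENNReal Pointwise Topology

namespace Pool.Agent.MP15cfc2

variable {d k : ℕ}

lemma projImage_eq (V : Submodule ℝ (E d)) (K : Set (E d)) :
    EllipsoidCylinders.projImage V K = V.orthogonalProjectionOnto '' K := by
  ext y
  simp only [EllipsoidCylinders.projImage, EllipsoidCylinders.orth, Set.mem_ofPred_eq,
    Set.mem_image]
  constructor
  · rintro ⟨x, hx, h⟩
    refine ⟨x, hx, ?_⟩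
    have h1 : V.orthogonalProjectionOnto (x - (y : E d)) = 0 := by
      rw [Submodule.orthogonalProjectionOnto_eq_zero_iff]
      exact h
    rw [map_sub, sub_eq_zero] at h1
    rw [h1]
    simp
  · rintro ⟨x, hx, rfl⟩
    refine ⟨x, hx, ?_⟩
    exact V.sub_starProjection_mem_orthogonal x

/-- conversion of cylinders -/
def toOld (C : EllipsoidCylinders.Cylinder d k) : Cylinder d k where
  H := C.H
  finrank_H := C.dim_H
  B := C.B
  measurable_B := C.measurable_B

/-- conversion of cylinders -/
def toNew (C : Cylinder d k) : EllipsoidCylinders.Cylinder d k where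
  H := C.H
  dim_H := C.finrank_H
  B := C.B
  measurable_B := C.measurable_B

lemma toSet_toOld (C : EllipsoidCylinders.Cylinder d k) : (toOld C).toSet = C.toSet := by
  ext x
  simp only [Cylinder.toSet, EllipsoidCylinders.Cylinder.toSet, toOld, Set.mem_add, Set.mem_image,
    Set.mem_ofPred_eq]
  constructor
  · rintro ⟨h, hh, _, ⟨b, hb, rfl⟩, rfl⟩
    exact ⟨h, hh, b, hb, rfl⟩
  · rintro ⟨h, hh, b, hb, rfl⟩
    exact ⟨h, hh, _, ⟨b, hb, rfl⟩, rfl⟩

lemma crv_toOld (C : EllipsoidCylinders.Cylinder d k) (K : Set (E d)) :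
    (toOld C).crv K = C.crv K := by
  unfold Cylinder.crv EllipsoidCylinders.Cylinder.crv
  rw [projImage_eq]
  rfl

lemma toOld_toNew (C : Cylinder d k) : toOld (toNew C) = C := rfl

lemma isEllipsoid_iff (K : Set (E d)) : EllipsoidCylinders.IsEllipsoid K ↔ IsEllipsoid K := by
  rfl

theorem admissible_iff (c : ℝ) : EllipsoidCylinders.Admissible d k c ↔ Admissible d k c := by
  constructor
  · intro h K hK N C hC
    have := h K ((isEllipsoid_iff K).2 hK) N (fun i => toNew (C i)) (by
      refine hC.trans (iUnion_mono fun i => ?_)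
      rw [← toSet_toOld, toOld_toNew])
    refine this.trans (le_of_eq (Finset.sum_congr rfl fun i _ => ?_))
    rw [← crv_toOld, toOld_toNew]
  · intro h K hK N C hC
    have := h K ((isEllipsoid_iff K).1 hK) N (fun i => toOld (C i)) (by
      refine hC.trans (iUnion_mono fun i => ?_)
      rw [toSet_toOld])
    refine this.trans (le_of_eq (Finset.sum_congr rfl fun i _ => ?_))
    rw [crv_toOld]

lemma admissibleSet_eq : EllipsoidCylinders.admissibleSet d k = {c : ℝ | Admissible d k c} := by
  ext c
  exact admissible_iff c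

end Pool.Agent.MP15cfc2
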