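import Pool.Agent.Lib.MP_15cfc2_co.Avg

open MeasureTheory Set Metric Module Filter
open scoped ENNReal Pointwise Topology

namespace Pool.Agent.MP15cfc2

variable {d k : ℕ}

lemma integral_norm_pow {V : Type*} [NormedAddCommGroup V] [InnerProductSpace ℝ V]
    [FiniteDimensional ℝ V] [MeasurableSpace V] [BorelSpace V] {k : ℕ} (hk : 1 ≤ k)
    (hV : finrank ℝ V = k) {ρ : ℝ} (hρ : 0 < ρ) (m : ℕ) :
    ∫ z in ball (0 : V) ρ, ‖z‖ ^ m = k * w k * (ρ ^ (k + m) / (k + m)) := by
  have hnt : Nontrivial V := Module.nontrivial_of_finrank_pos (R := ℝ) (by omega)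
  have h1 : ∫ z in ball (0 : V) ρ, ‖z‖ ^ m
      = ∫ z : V, (Iio ρ).indicator (fun t : ℝ => t ^ m) ‖z‖ := by
    rw [← integral_indicator measurableSet_ball]
    congr 1
    ext z
    simp [indicator]
  rw [h1, integral_fun_norm_addHaar volume (fun t => (Iio ρ).indicator (fun t : ℝ => t ^ m) t), hV]
  have h2 : (volume : Measure V).real (ball 0 1) = w k := by
    rw [Measure.real, volume_unit_ball hk hV, ENNReal.toReal_ofReal (w_pos k).le]
  have h3 : ∫ y in Ioi (0 : ℝ), y ^ (k - 1) • (Iio ρ).indicator (fun t : ℝ => t ^ m) y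
      = ρ ^ (k + m) / (k + m) := by
    have h4 : ∫ y in Ioi (0 : ℝ), y ^ (k - 1) • (Iio ρ).indicator (fun t : ℝ => t ^ m) y
        = ∫ y in Ioo (0 : ℝ) ρ, y ^ (k - 1 + m) := by
      have : ∀ y : ℝ, y ^ (k - 1) • (Iio ρ).indicator (fun t : ℝ => t ^ m) y =
          (Iio ρ).indicator (fun y => y ^ (k - 1 + m)) y := by
        intro y
        by_cases hy : y ∈ Iio ρ
        · rw [indicator_of_mem hy, indicator_of_mem hy, smul_eq_mul, pow_add]
        · rw [indicator_of_notMem hy, indicator_of_notMem hy, smul_zero]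
      simp_rw [this]
      rw [setIntegral_indicator measurableSet_Iio]
      rfl
    rw [h4, ← integral_Ioc_eq_integral_Ioo, ← intervalIntegral.integral_of_le hρ.le, integral_pow]
    have e : k - 1 + m + 1 = k + m := by omega
    rw [e]
    have e2 : ((k - 1 + m : ℕ) : ℝ) + 1 = k + m := by
      have : ((k - 1 + m + 1 : ℕ) : ℝ) = ((k + m : ℕ) : ℝ) := by rw [e]
      push_cast at this
      push_cast
      linarith
    rw [e2, zero_pow (by omega), sub_zero]
  rw [h3, h2]
  simp only [nsmul_eq_mul, smul_eq_mul]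
  ring

/-- The cone of points making a small angle with `H`. -/
def cone (H : Submodule ℝ (E d)) (r : ℝ) : Set (E d) :=
  {x | ‖Hᗮ.orthogonalProjectionOnto x‖ ≤ r * ‖x‖}

lemma measurableSet_cone (H : Submodule ℝ (E d)) (r : ℝ) : MeasurableSet (cone H r) := by
  apply IsClosed.measurableSet
  apply isClosed_le <;> fun_prop

lemma cone_smul (H : Submodule ℝ (E d)) (r : ℝ) (x : E d) (t : ℝ) (ht : 0 < t) :
    t • x ∈ cone H r ↔ x ∈ cone H r := by
  simp only [cone, Set.mem_ofPred_eq, map_smul, norm_smul, Real.norm_eq_abs, abs_of_pos ht]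
  constructor
  · intro h
    have : t * ‖Hᗮ.orthogonalProjectionOnto x‖ ≤ t * (r * ‖x‖) := by linarith
    exact le_of_mul_le_mul_left this ht
  · intro h
    have := mul_le_mul_of_nonneg_left h ht.le
    linarith

lemma cone_volume (H : Submodule ℝ (E d)) (hH : finrank ℝ H = k) (hk : 1 ≤ k) (hkd : k < d)
    {r : ℝ} (hr : 0 < r) :
    w (d - k) * w k * (k / d) * r ^ (d - k) * (1 / √(1 + r ^ 2)) ^ d ≤
      (volume (ball (0 : E d) 1 ∩ cone H r)).toReal := by
  set ρ : ℝ := 1 / √(1 + r ^ 2) with hρ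
  have hρpos : 0 < ρ := by positivity
  have hρ2 : (1 + r ^ 2) * ρ ^ 2 = 1 := by
    rw [hρ, div_pow, Real.sq_sqrt (by positivity)]
    field_simp
  set m := d - k with hm
  let T : Set (H × Hᗮ) := {p | ‖p.1‖ < ρ ∧ ‖p.2‖ ≤ r * ‖p.1‖}
  have hT : MeasurableSet T := by
    have h1 : MeasurableSet {p : H × Hᗮ | ‖p.1‖ < ρ} :=
      measurableSet_lt (by fun_prop) measurable_const
    have h2 : MeasurableSet {p : H × Hᗮ | ‖p.2‖ ≤ r * ‖p.1‖} :=
      measurableSet_le (by fun_prop) (by fun_prop)
    exact h1.inter h2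
  have hsub : (fun x : E d => (H.orthogonalProjectionOnto x, Hᗮ.orthogonalProjectionOnto x)) ⁻¹' T ⊆
      ball (0 : E d) 1 ∩ cone H r := by
    rintro x ⟨h1, h2⟩
    simp only at h1 h2
    have hsp := norm_sq_split H x
    set a := ‖H.orthogonalProjectionOnto x‖
    set b := ‖Hᗮ.orthogonalProjectionOnto x‖
    have ha : 0 ≤ a := norm_nonneg _
    have hb : 0 ≤ b := norm_nonneg _
    have hx1 : a ≤ ‖x‖ := by
      have : a ^ 2 ≤ ‖x‖ ^ 2 := by nlinarith
      exact (abs_le_of_sq_le_sq' this (norm_nonneg _)).2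
    refine ⟨?_, ?_⟩
    · rw [mem_ball_zero_iff]
      have h3 : ‖x‖ ^ 2 < 1 := by
        rw [hsp, ← hρ2]
        have h4 : a ^ 2 < ρ ^ 2 := by nlinarith
        have h5 : b ^ 2 ≤ r ^ 2 * a ^ 2 := by nlinarith
        nlinarith
      nlinarith [norm_nonneg x]
    · exact h2.trans (mul_le_mul_of_nonneg_left hx1 hr.le)
  have hfr : finrank ℝ Hᗮ = m := finrank_orth H hH
  have hvolT : (volume.prod volume) T = ENNReal.ofReal (w m * w k * (k / d) * r ^ m * ρ ^ d) := by
    rw [Measure.prod_apply hT]
    have h1 : ∀ z : H, volume (Prod.mk z ⁻¹' T) =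
        (ball (0 : H) ρ).indicator (fun z => ENNReal.ofReal (r ^ m * w m * ‖z‖ ^ m)) z := by
      intro z
      by_cases hz : z ∈ ball (0 : H) ρ
      · rw [indicator_of_mem hz]
        rw [mem_ball_zero_iff] at hz
        have : Prod.mk z ⁻¹' T = closedBall (0 : Hᗮ) (r * ‖z‖) := by
          ext y
          rw [mem_closedBall_zero_iff]
          exact ⟨fun h => h.2, fun h => ⟨hz, h⟩⟩
        rw [this, Measure.addHaar_closedBall _ _ (by positivity), volume_unit_ball (by omega) hfr,
          hfr, ← ENNReal.ofReal_mul (by positivity)]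
        congr 1
        ring
      · rw [indicator_of_notMem hz]
        rw [mem_ball_zero_iff] at hz
        have : Prod.mk z ⁻¹' T = ∅ := by
          ext y
          simp only [Set.mem_preimage, Set.mem_empty_iff_false, iff_false]
          exact fun h => hz h.1
        rw [this, measure_empty]
    rw [lintegral_congr h1, lintegral_indicator measurableSet_ball]
    rw [← ofReal_integral_eq_lintegral_ofReal]
    · rw [integral_const_mul, integral_norm_pow hk hH hρpos]
      congr 1
      have e1 : k + m = d := by omega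
      have e2 : (k : ℝ) + m = d := by exact_mod_cast e1
      rw [e2, e1]
      ring
    · apply Integrable.const_mul
      have : IntegrableOn (fun z : H => ‖z‖ ^ m) (closedBall (0 : H) ρ) :=
        (by fun_prop : Continuous fun z : H => ‖z‖ ^ m).continuousOn.integrableOn_compact
          (isCompact_closedBall _ _)
      exact this.mono_set ball_subset_closedBall
    · filter_upwards with z
      have := (w_pos m).le
      positivity
  have hle : (volume.prod volume) T ≤ volume (ball (0 : E d) 1 ∩ cone H r) := by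
    rw [← (measurePreserving_split H).measure_preimage hT.nullMeasurableSet]
    exact measure_mono hsub
  rw [hvolT] at hle
  have hfin : volume (ball (0 : E d) 1 ∩ cone H r) ≠ ∞ :=
    ne_top_of_le_ne_top measure_ball_lt_top.ne (measure_mono Set.inter_subset_left)
  exact (ENNReal.ofReal_le_iff_le_toReal hfin).1 hle

end Pool.Agent.MP15cfc2
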