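import Pool.Agent.Lib.MP_15cfc2_co.Main1

open MeasureTheory Set Metric Module Filter
open scoped ENNReal Pointwise Topology

namespace Pool.Agent.MP15cfc2

variable {d k : ℕ}

/-- Vectors vanishing on the coordinates in `I`. -/
def offSub (I : Finset (Fin d)) : Submodule ℝ (E d) where
  carrier := {x | ∀ c ∈ I, x c = 0}
  add_mem' := by
    intro a b ha hb c hc
    simp [ha c hc, hb c hc]
  zero_mem' := by
    intro c _
    simp
  smul_mem' := by
    intro r a ha c hc
    simp [ha c hc]

lemma mem_offSub {I : Finset (Fin d)} {x : E d} : x ∈ offSub I ↔ ∀ c ∈ I, x c = 0 := Iff.rfl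

lemma single_mem (I : Finset (Fin d)) (c : Fin d) (hc : c ∈ I) :
    EuclideanSpace.single c (1:ℝ) ∈ (offSub I)ᗮ := by
  rw [Submodule.mem_orthogonal]
  intro x hx
  rw [EuclideanSpace.inner_single_right]
  simp [hx c hc]

/-- coordinate vectors as a family in the complement -/
noncomputable def cv (I : Finset (Fin d)) (c : I) : (offSub I)ᗮ :=
  ⟨EuclideanSpace.single (c : Fin d) (1:ℝ), single_mem I c c.2⟩

lemma inner_cv (I : Finset (Fin d)) (c : I) (y : (offSub I)ᗮ) :
    inner ℝ (cv I c) y = (y : E d) c := by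
  rw [Submodule.coe_inner]
  simp [cv, EuclideanSpace.inner_single_left]

lemma orthonormal_cv (I : Finset (Fin d)) : Orthonormal ℝ (cv I) := by
  classical
  rw [orthonormal_iff_ite]
  intro a b
  rw [inner_cv]
  simp only [cv]
  by_cases h : a = b
  · subst h; simp
  · have h' : (a : Fin d) ≠ b := fun h' => h (Subtype.ext h')
    simp [h, h']

/-- The coordinate orthonormal basis of the complement of `offSub I`. -/
noncomputable def cbasis (I : Finset (Fin d)) : OrthonormalBasis I ℝ (offSub I)ᗮ :=
  OrthonormalBasis.mkOfOrthogonalEqBot (orthonormal_cv I) (by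
    rw [Submodule.eq_bot_iff]
    intro y hy
    have h1 : ∀ c : I, (y : E d) c = 0 := by
      intro c
      rw [← inner_cv]
      exact hy _ (Submodule.subset_span ⟨c, rfl⟩)
    have h2 : (y : E d) ∈ offSub I := fun c hc => h1 ⟨c, hc⟩
    have h3 : (y : E d) ∈ offSub I ⊓ (offSub I)ᗮ := ⟨h2, y.2⟩
    rw [Submodule.inf_orthogonal_eq_bot] at h3
    exact Subtype.ext (by simpa using h3))

lemma cbasis_repr (I : Finset (Fin d)) (y : (offSub I)ᗮ) (c : I) :
    (cbasis I).repr y c = (y : E d) c := by
  rw [OrthonormalBasis.repr_apply_apply, cbasis, OrthonormalBasis.coe_of_orthogonal_eq_bot_mk,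
    inner_cv]

lemma finrank_offSub_orth (I : Finset (Fin d)) : finrank ℝ (offSub I)ᗮ = I.card := by
  rw [Module.finrank_eq_card_basis (cbasis I).toBasis]
  simp

lemma finrank_offSub (I : Finset (Fin d)) (hk : I.card + k = d) : finrank ℝ (offSub I) = k := by
  have h := (offSub I).finrank_add_finrank_orthogonal
  rw [finrank_offSub_orth, finrank_euclideanSpace_fin] at h
  omega

/-- coordinates of the projection -/
lemma proj_coord (I : Finset (Fin d)) (x : E d) (c : Fin d) (hc : c ∈ I) :
    ((offSub I)ᗮ.orthogonalProjectionOnto x : E d) c = x c := by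
  have h : x - ((offSub I)ᗮ.orthogonalProjectionOnto x : E d) ∈ offSub I := by
    have h3 : x - ((offSub I)ᗮ.orthogonalProjectionOnto x : E d)
        = (offSub I).orthogonalProjectionOnto x := by
      rw [sub_eq_iff_eq_add]
      exact ((offSub I).starProjection_add_starProjection_orthogonal x).symm
    rw [h3]
    exact Subtype.mem _
  have h2 := h c hc
  simp only [PiLp.sub_apply] at h2
  linarith

/-- The diagonal ellipsoid with weights `a`. -/
def diagSet {ι : Type*} [Fintype ι] (a : ι → ℝ) : Set (EuclideanSpace ℝ ι) :=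
  {z | ∑ c, a c * z c ^ 2 ≤ 1}

lemma volume_diagSet {ι : Type*} [Fintype ι] [DecidableEq ι] (a : ι → ℝ) (ha : ∀ c, 0 < a c) :
    volume (diagSet a) = ENNReal.ofReal (√(∏ c, a c))⁻¹ *
      volume (closedBall (0 : EuclideanSpace ℝ ι) 1) := by
  let M : Matrix ι ι ℝ := Matrix.diagonal fun c => √(a c)
  let f : EuclideanSpace ℝ ι →ₗ[ℝ] EuclideanSpace ℝ ι := Matrix.toEuclideanLin M
  have hdet : LinearMap.det f = √(∏ c, a c) := by
    have h1 : LinearMap.det f = M.det := by
      simp only [f]
      rw [Matrix.toEuclideanLin_eq_toLin_orthonormal, LinearMap.det_toLin]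
    rw [h1, Matrix.det_diagonal]
    rw [Real.sqrt_eq_rpow, ← Real.finsetProd_rpow _ _ (fun c _ => (ha c).le)]
    simp [Real.sqrt_eq_rpow]
  have hpos : 0 < √(∏ c, a c) := Real.sqrt_pos.2 (Finset.prod_pos fun c _ => ha c)
  have hset : diagSet a = f ⁻¹' closedBall 0 1 := by
    ext z
    simp only [diagSet, Set.mem_ofPred_eq, Set.mem_preimage, mem_closedBall_zero_iff]
    rw [EuclideanSpace.norm_eq]
    have h2 : ∀ c, f z c = √(a c) * z c := by
      intro c
      simp [f, M, Matrix.toEuclideanLin_apply, Matrix.mulVec_diagonal]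
    simp only [h2, norm_mul, Real.norm_eq_abs, mul_pow, sq_abs]
    rw [Real.sqrt_le_left zero_le_one]
    simp only [Real.sq_sqrt (ha _).le]
    norm_num
  rw [hset, Measure.addHaar_preimage_linearMap _ (by rw [hdet]; exact hpos.ne'), hdet,
    abs_of_pos (by positivity)]

end Pool.Agent.MP15cfc2
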