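import Pool.Agent.Lib.MP_15cfc2_co.LogBound

open MeasureTheory Set Metric Module Filter
open scoped ENNReal Pointwise Topology

namespace Pool.Agent.MP15cfc2

variable {d k : ℕ}

/-- The single cylinder `H + π_H K` shows that every admissible number is at most `1`. -/
theorem admissible_le_one (hkd : k < d) {c : ℝ} (hc : Admissible d k c) : c ≤ 1 := by
  have h := upper_bound_aux (d := d) (k := k) (s := 0) (j := d - k) (N := 1) (by omega) (by omega)
    le_rfl (by omega) hc
  simpa using h

/-- The largest admissible number exists. -/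
theorem isGreatest_sSup (hkd : k < d) :
    IsGreatest {c : ℝ | Admissible d k c} (sSup {c : ℝ | Admissible d k c}) := by
  have hbdd : BddAbove {c : ℝ | Admissible d k c} := ⟨1, fun c hc => admissible_le_one hkd hc⟩
  have hne : {c : ℝ | Admissible d k c}.Nonempty := ⟨0, fun K _ N C _ => by simp⟩
  refine ⟨?_, fun c hc => le_csSup hbdd hc⟩
  intro K hK N C hC
  by_cases hX : ∑ i, (C i).crv K = ∞
  · rw [hX]; exact le_top
  apply (ENNReal.ofReal_le_iff_le_toReal hX).2
  apply csSup_le hne
  intro c hc
  exact (ENNReal.ofReal_le_iff_le_toReal hX).1 (hc K hK N C hC)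

end Pool.Agent.MP15cfc2
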