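import Pool.Agent.Lib.MP_15cfc2_co.LogCover

open MeasureTheory Set Metric Module Filter
open scoped ENNReal Pointwise Topology

namespace Pool.Agent.MP15cfc2

variable {d k : ℕ}

lemma lowerConst_pos (hk : 1 ≤ k) (hkd : k < d) : 0 < lowerConst d k := by
  have hwd := w_pos d
  have hwk := w_pos k
  have hwm := w_pos (d - k)
  have hk' : (0:ℝ) < k := by exact_mod_cast hk
  have hd' : (0:ℝ) < d := by exact_mod_cast (by omega : 0 < d)
  have hL := lowerConst_eq hk hkd
  have h1 : 0 < lowerConst d k * (w (d - k) * (k * w k)) := by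
    rw [hL]; positivity
  by_contra h
  push Not at h
  have : lowerConst d k * (w (d - k) * (k * w k)) ≤ 0 :=
    mul_nonpos_of_nonpos_of_nonneg h (by positivity)
  linarith

lemma cone_prop_le_one (hk : 1 ≤ k) (hkd : k < d) {r : ℝ} (hr : 0 < r) :
    r ^ (d - k) * (1 / √(1 + r ^ 2)) ^ d / lowerConst d k ≤ 1 := by
  obtain ⟨I, hI⟩ : ∃ I : Finset (Fin d), I.card = d - k := by
    obtain ⟨I, -, hI⟩ := Finset.exists_subset_card_eq (s := (Finset.univ : Finset (Fin d)))
      (n := d - k) (by simp)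
    exact ⟨I, hI⟩
  have hH : finrank ℝ (offSub I) = k := finrank_offSub I (by omega)
  have hcv := cone_volume (offSub I) hH hk hkd hr
  have hB : (volume (ball (0 : E d) 1)).toReal = w d := by
    rw [volume_unit_ball (n := d) (by omega) (by simp), ENNReal.toReal_ofReal (w_pos d).le]
  have h1 : (volume (ball (0 : E d) 1 ∩ cone (offSub I) r)).toReal ≤ w d := by
    rw [← hB]
    exact ENNReal.toReal_mono measure_ball_lt_top.ne (measure_mono Set.inter_subset_left)
  have hwd := w_pos d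
  have hwk := w_pos k
  have hwm := w_pos (d - k)
  have hk' : (0:ℝ) < k := by exact_mod_cast hk
  have hd' : (0:ℝ) < d := by exact_mod_cast (by omega : 0 < d)
  have hL := lowerConst_eq hk hkd
  have hLpos := lowerConst_pos hk hkd
  have h2 : r ^ (d - k) * (1 / √(1 + r ^ 2)) ^ d / lowerConst d k * w d =
      w (d - k) * w k * (k / d) * r ^ (d - k) * (1 / √(1 + r ^ 2)) ^ d := by
    have e : w d = lowerConst d k * (w (d - k) * (k * w k)) / d := by
      rw [hL]; field_simp
    rw [e]
    field_simp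
  have h3 : r ^ (d - k) * (1 / √(1 + r ^ 2)) ^ d / lowerConst d k * w d ≤ 1 * w d := by
    rw [h2, one_mul]
    exact hcv.trans h1
  exact le_of_mul_le_mul_right h3 hwd

/-- `c(d,k) ≤ 28 d log d · Γ(k/2) Γ((d-k)/2+1) / Γ(d/2)`. -/
theorem log_bound (hk : 1 ≤ k) (hkd : k < d) {c : ℝ} (hc : Admissible d k c) :
    c ≤ 28 * d * Real.log d * lowerConst d k := by
  set L := lowerConst d k with hLdef
  have hL : 0 < L := lowerConst_pos hk hkd
  set m := d - k with hm
  have hd2 : (2:ℝ) ≤ d := by exact_mod_cast (by omega : 2 ≤ d)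
  set D : ℝ := (d:ℝ) with hD
  have hD0 : 0 < D := by linarith
  set r : ℝ := 1 / √D with hr
  have hsD : 0 < √D := Real.sqrt_pos.2 hD0
  have hsD2 : √D ^ 2 = D := Real.sq_sqrt hD0.le
  have hr0 : 0 < r := by positivity
  have hsD1 : 1 ≤ √D := by
    rw [Real.one_le_sqrt]; linarith
  have hr1 : r ≤ 1 := by
    rw [hr, div_le_one hsD]; exact hsD1
  have hr2 : r ^ 2 = 1 / D := by rw [hr, div_pow, hsD2, one_pow]
  set η : ℝ := r / (4 * D) with hη
  have hη0 : 0 < η := by positivity
  have hη1 : η < 1 := by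
    rw [hη, div_lt_one (by positivity)]
    linarith
  have hr' : r - 2 * η = r * (1 - 1 / (2 * D)) := by
    rw [hη]; field_simp; ring
  have hfac : (1:ℝ) / 2 ≤ 1 - 1 / (2 * D) := by
    have : 1 / (2 * D) ≤ 1 / 2 := by
      apply one_div_le_one_div_of_le (by norm_num); linarith
    linarith
  have hr'0 : 0 < r - 2 * η := by rw [hr']; positivity
  set r' := r - 2 * η with hr'def
  have hr'r : r' ≤ r := by rw [hr'def]; linarith
  set p : ℝ := r' ^ m * (1 / √(1 + r' ^ 2)) ^ d / L with hp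
  have hp0 : 0 < p := by positivity
  have hp1 : p ≤ 1 := cone_prop_le_one hk hkd hr'0
  have hlogη : 1 ≤ Real.log (1 / η) := by
    rw [Real.le_log_iff_exp_le (by positivity)]
    have h1 : 1 / η = 4 * D * √D := by
      rw [hη, hr]; field_simp
    rw [h1]
    have h2 := Real.exp_one_lt_d9
    nlinarith
  set A : ℝ := D / p * Real.log (1 / η) with hA
  have hA2 : 2 ≤ A := by
    have h1 : 2 ≤ D / p := by
      rw [le_div_iff₀ hp0]; nlinarith
    nlinarith
  set N : ℕ := ⌈A⌉₊ + 1 with hN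
  have hNA : A < N := by
    rw [hN]; push_cast
    have := Nat.le_ceil A
    linarith
  have hNA2 : (N : ℝ) ≤ 2 * A := by
    rw [hN]; push_cast
    have := Nat.ceil_lt_add_one (by linarith : 0 ≤ A)
    linarith
  have hpow : (1 - p) ^ N < η ^ d := by
    have h1 : (1 - p) ≤ Real.exp (-p) := by
      have := Real.add_one_le_exp (-p); linarith
    have h2 : (1 - p) ^ N ≤ Real.exp (-p) ^ N := pow_le_pow_left₀ (by linarith) h1 N
    have h3 : Real.exp (-p) ^ N = Real.exp (-(p * N)) := by
      rw [← Real.exp_nat_mul]; congr 1; ring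
    have h4 : η ^ d = Real.exp (-(D * Real.log (1 / η))) := by
      rw [one_div, Real.log_inv, mul_neg, neg_neg, ← Real.rpow_natCast η d,
        Real.rpow_def_of_pos hη0, mul_comm]
    rw [h4]
    refine lt_of_le_of_lt (h2.trans_eq h3) ?_
    rw [Real.exp_lt_exp]
    have h5 : p * A = D * Real.log (1 / η) := by
      rw [hA]; field_simp
    have h6 : p * A < p * N := mul_lt_mul_of_pos_left hNA hp0
    linarith
  have hmain := general_cover hk hkd (r := r) (η := η) (p := p) hη0 hη1 (by linarith) hp0.le le_rfl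
    hpow hc
  refine hmain.trans ?_
  -- estimate the cost
  have hmd : m ≤ d := by omega
  have hm_fac : r ^ m ≤ 2 * r' ^ m := by
    have h1 : r' ^ m = r ^ m * (1 - 1 / (2 * D)) ^ m := by
      rw [hr', mul_pow]
    have h2 : (1:ℝ) / 2 ≤ (1 - 1 / (2 * D)) ^ m := by
      have h3 := one_add_mul_le_pow (a := -(1 / (2 * D))) (by linarith) m
      have h4 : (m:ℝ) * (1 / (2 * D)) ≤ 1 / 2 := by
        have : (m:ℝ) ≤ D := by rw [hD]; exact_mod_cast hmd
        calc (m:ℝ) * (1 / (2 * D)) ≤ D * (1 / (2 * D)) :=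
              mul_le_mul_of_nonneg_right this (by positivity)
          _ = 1 / 2 := by field_simp
      have h5 : (1 + -(1 / (2 * D))) ^ m = (1 - 1 / (2 * D)) ^ m := by ring
      rw [h5] at h3
      linarith
    rw [h1]
    have h6 : 0 < r ^ m := by positivity
    nlinarith
  have hsq_fac : √(1 + r' ^ 2) ^ d ≤ 2 := by
    have h1 : √(1 + r' ^ 2) ≤ Real.exp (r' ^ 2 / 2) := by
      rw [Real.sqrt_le_left (Real.exp_pos _).le, ← Real.exp_nat_mul]
      have := Real.add_one_le_exp (r' ^ 2)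
      have e : ((2:ℕ):ℝ) * (r' ^ 2 / 2) = r' ^ 2 := by push_cast; ring
      rw [e]; linarith
    have h2 : √(1 + r' ^ 2) ^ d ≤ Real.exp (r' ^ 2 / 2) ^ d :=
      pow_le_pow_left₀ (Real.sqrt_nonneg _) h1 d
    have h3 : Real.exp (r' ^ 2 / 2) ^ d ≤ Real.exp (1 / 2) := by
      rw [← Real.exp_nat_mul, Real.exp_le_exp]
      have h4 : r' ^ 2 ≤ 1 / D := by
        rw [← hr2]; exact pow_le_pow_left₀ hr'0.le hr'r 2
      calc D * (r' ^ 2 / 2) ≤ D * (1 / D / 2) := by gcongr
        _ = 1 / 2 := by field_simp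
    have h5 : Real.exp (1 / 2) ≤ 2 := by
      have h6 : Real.exp (1 / 2) ^ 2 = Real.exp 1 := by
        rw [← Real.exp_nat_mul]; congr 1; norm_num
      have h7 := Real.exp_one_lt_d9
      nlinarith [Real.exp_pos (1/2 : ℝ)]
    linarith
  have hratio : r ^ m / p ≤ 4 * L := by
    rw [div_le_iff₀ hp0, hp]
    have h1 : 0 < √(1 + r' ^ 2) ^ d := by positivity
    have h2 : 4 * L * (r' ^ m * (1 / √(1 + r' ^ 2)) ^ d / L)
        = 4 * r' ^ m / √(1 + r' ^ 2) ^ d := by
      rw [div_pow, one_pow]; field_simp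
    rw [h2, le_div_iff₀ h1]
    have h3 : 0 < r' ^ m := by positivity
    calc r ^ m * √(1 + r' ^ 2) ^ d ≤ (2 * r' ^ m) * 2 := by gcongr
      _ = 4 * r' ^ m := by ring
  have hlog : Real.log (1 / η) ≤ 7 / 2 * Real.log D := by
    have h1 : 1 / η = 4 * (D * √D) := by
      rw [hη, hr]; field_simp
    rw [h1, Real.log_mul (by norm_num) (by positivity), Real.log_mul (by positivity) (by positivity),
      Real.log_sqrt hD0.le]
    have h2 : Real.log 4 ≤ 2 * Real.log D := by
      have : Real.log 4 = 2 * Real.log 2 := by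
        rw [show (4:ℝ) = 2 ^ 2 by norm_num, Real.log_pow]; norm_num
      rw [this]
      have := Real.log_le_log (by norm_num) hd2
      linarith
    linarith
  have hlog0 : 0 ≤ Real.log (1 / η) := by linarith
  calc (N : ℝ) * r ^ m ≤ 2 * A * r ^ m := mul_le_mul_of_nonneg_right hNA2 (by positivity)
    _ = 2 * D * Real.log (1 / η) * (r ^ m / p) := by rw [hA]; field_simp
    _ ≤ 2 * D * Real.log (1 / η) * (4 * L) := by gcongr
    _ ≤ 2 * D * (7 / 2 * Real.log D) * (4 * L) := by gcongr
    _ = 28 * D * Real.log D * L := by ring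

end Pool.Agent.MP15cfc2
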