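import Pool.Agent.Lib.MP_15cfc2_co.Cone

open MeasureTheory Set Metric Module Filter
open scoped ENNReal Pointwise Topology

namespace Pool.Agent.MP15cfc2

variable {d k : ℕ}

/-- The rotated subspace `g H`. -/
noncomputable def rotSub (g : G d) (H : Submodule ℝ (E d)) : Submodule ℝ (E d) :=
  H.map ((Unitary.linearIsometryEquiv g).toLinearEquiv : E d →ₗ[ℝ] E d)

lemma finrank_rotSub (g : G d) (H : Submodule ℝ (E d)) : finrank ℝ (rotSub g H) = finrank ℝ H :=
  LinearEquiv.finrank_map_eq (Unitary.linearIsometryEquiv g).toLinearEquiv H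

lemma norm_proj_rotSub (g : G d) (H : Submodule ℝ (E d)) (x : E d) :
    ‖(rotSub g H)ᗮ.orthogonalProjectionOnto x‖ = ‖Hᗮ.orthogonalProjectionOnto (act g x)‖ := by
  set e := Unitary.linearIsometryEquiv g with he
  have hact : act g x = e.symm x := by
    rw [he, act]
    have : e.symm = Unitary.linearIsometryEquiv g⁻¹ := by
      rw [he, map_inv]
      rfl
    rw [← he, this]
    rfl
  have h1 : ((rotSub g H)ᗮ.orthogonalProjectionOnto x : E d) =
      e (Hᗮ.orthogonalProjectionOnto (act g x)) := by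
    have a1 : ((rotSub g H)ᗮ.orthogonalProjectionOnto x : E d) = x - (rotSub g H).starProjection x := by
      rw [eq_sub_iff_add_eq']
      exact (rotSub g H).starProjection_add_starProjection_orthogonal x
    have a2 : (Hᗮ.orthogonalProjectionOnto (act g x) : E d) =
        act g x - H.starProjection (act g x) := by
      rw [eq_sub_iff_add_eq']
      exact H.starProjection_add_starProjection_orthogonal (act g x)
    have a3 : (rotSub g H).starProjection x = e (H.starProjection (e.symm x)) :=
      Submodule.starProjection_map_apply e H x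
    rw [a1, a2, a3, map_sub, hact, e.apply_symm_apply]
  calc ‖(rotSub g H)ᗮ.orthogonalProjectionOnto x‖
      = ‖((rotSub g H)ᗮ.orthogonalProjectionOnto x : E d)‖ := rfl
    _ = ‖(Hᗮ.orthogonalProjectionOnto (act g x) : E d)‖ := by rw [h1, e.norm_map]
    _ = _ := rfl

/-- From a small uncovered volume to a genuine covering by slightly thicker cylinders. -/
lemma cover_of_small (hd : 1 ≤ d) (H : Submodule ℝ (E d)) {r η : ℝ} (hη : 0 < η) (hη1 : η < 1)
    (hr : 0 < r) (hrη : 2 * η ≤ r) {N : ℕ} (g : Fin N → G d)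
    (hsmall : (volume {x ∈ ball (0 : E d) 1 | ∀ i, act (g i) x ∉ cone H (r - 2 * η)}).toReal <
      η ^ d * (volume (ball (0 : E d) 1)).toReal) :
    ∀ x ∈ closedBall (0 : E d) 1, ∃ i, ‖(rotSub (g i) H)ᗮ.orthogonalProjectionOnto x‖ ≤ r := by
  intro x hx
  by_contra hcon
  push Not at hcon
  have hcon' : ∀ i, r < ‖Hᗮ.orthogonalProjectionOnto (act (g i) x)‖ := by
    intro i
    rw [← norm_proj_rotSub]
    exact hcon i
  apply absurd hsmall
  rw [not_lt]
  rw [mem_closedBall_zero_iff] at hx
  -- the point is not zero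
  rcases Nat.eq_zero_or_pos N with hN | hN
  · subst hN
    have h1 : {x ∈ ball (0 : E d) 1 | ∀ i : Fin 0, act (g i) x ∉ cone H (r - 2 * η)} =
        ball (0 : E d) 1 := by
      ext y
      constructor
      · exact fun h => h.1
      · exact fun h => ⟨h, fun i => i.elim0⟩
    rw [h1]
    have : η ^ d ≤ 1 := pow_le_one₀ hη.le hη1.le
    calc η ^ d * (volume (ball (0 : E d) 1)).toReal ≤ 1 * (volume (ball (0 : E d) 1)).toReal :=
          mul_le_mul_of_nonneg_right this ENNReal.toReal_nonneg
      _ = _ := one_mul _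
  have hx0 : 0 < ‖x‖ := by
    have h1 := hcon' ⟨0, hN⟩
    have h2 := Hᗮ.norm_orthogonalProjectionOnto_apply_le (act (g ⟨0, hN⟩) x)
    rw [norm_act'] at h2
    linarith
  set u : E d := (1 / ‖x‖) • x with hu
  have hun : ‖u‖ = 1 := by
    rw [hu, norm_smul, Real.norm_eq_abs, abs_of_pos (by positivity)]
    field_simp
  have hPu : ∀ i, r < ‖Hᗮ.orthogonalProjectionOnto (act (g i) u)‖ := by
    intro i
    rw [hu, act_smul, map_smul, norm_smul, Real.norm_eq_abs, abs_of_pos (by positivity)]
    have h1 : 1 ≤ 1 / ‖x‖ := by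
      rw [le_div_iff₀ hx0]
      linarith
    calc r < ‖Hᗮ.orthogonalProjectionOnto (act (g i) x)‖ := hcon' i
      _ = 1 * ‖Hᗮ.orthogonalProjectionOnto (act (g i) x)‖ := (one_mul _).symm
      _ ≤ _ := mul_le_mul_of_nonneg_right h1 (norm_nonneg _)
  have hsub : ball ((1 - η) • u) η ⊆
      {x ∈ ball (0 : E d) 1 | ∀ i, act (g i) x ∉ cone H (r - 2 * η)} := by
    intro y hy
    rw [mem_ball, dist_eq_norm] at hy
    have hn1 : ‖(1 - η) • u‖ = 1 - η := by
      rw [norm_smul, hun, mul_one, Real.norm_eq_abs, abs_of_pos (by linarith)]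
    have hyn : ‖y‖ < 1 := by
      calc ‖y‖ = ‖(y - (1 - η) • u) + (1 - η) • u‖ := by rw [sub_add_cancel]
        _ ≤ ‖y - (1 - η) • u‖ + ‖(1 - η) • u‖ := norm_add_le _ _
        _ < η + (1 - η) := by rw [hn1]; linarith
        _ = 1 := by ring
    refine ⟨mem_ball_zero_iff.2 hyn, fun i hi => ?_⟩
    simp only [cone, Set.mem_ofPred_eq, norm_act'] at hi
    have hyu : ‖u - y‖ < 2 * η := by
      calc ‖u - y‖ = ‖η • u + ((1 - η) • u - y)‖ := by
            congr 1
            rw [sub_smul, one_smul]; abel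
        _ ≤ ‖η • u‖ + ‖(1 - η) • u - y‖ := norm_add_le _ _
        _ < η + η := by
            rw [norm_smul, hun, mul_one, Real.norm_eq_abs, abs_of_pos hη, norm_sub_rev ((1 - η) • u) y]
            linarith
        _ = 2 * η := by ring
    have hact : act (g i) u = act (g i) y + act (g i) (u - y) := by
      simp [act]
    have h3 : ‖Hᗮ.orthogonalProjectionOnto (act (g i) u)‖ ≤
        ‖Hᗮ.orthogonalProjectionOnto (act (g i) y)‖ + ‖u - y‖ := by
      rw [hact, map_add]
      refine (norm_add_le _ _).trans ?_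
      have := Hᗮ.norm_orthogonalProjectionOnto_apply_le (act (g i) (u - y))
      rw [norm_act'] at this
      linarith
    have h4 : (r - 2 * η) * ‖y‖ ≤ (r - 2 * η) * 1 :=
      mul_le_mul_of_nonneg_left hyn.le (by linarith)
    have := hPu i
    linarith
  have hvol : volume (ball ((1 - η) • u) η) = ENNReal.ofReal (η ^ d) * volume (ball (0 : E d) 1) := by
    have hnt : Nontrivial (E d) := Module.nontrivial_of_finrank_pos (R := ℝ) (by simp; omega)
    rw [Measure.addHaar_ball _ _ hη.le, finrank_euclideanSpace_fin]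
  have h5 : ENNReal.ofReal (η ^ d) * volume (ball (0 : E d) 1) ≤
      volume {x ∈ ball (0 : E d) 1 | ∀ i, act (g i) x ∉ cone H (r - 2 * η)} := by
    rw [← hvol]
    exact measure_mono hsub
  have h6 : volume {x ∈ ball (0 : E d) 1 | ∀ i, act (g i) x ∉ cone H (r - 2 * η)} ≠ ∞ :=
    ne_top_of_le_ne_top measure_ball_lt_top.ne (measure_mono (fun x hx => hx.1))
  have h7 := ENNReal.toReal_mono h6 h5
  rwa [ENNReal.toReal_mul, ENNReal.toReal_ofReal (by positivity)] at h7

/-- Cylinder with a ball as base. -/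
noncomputable def ballCyl (H : Submodule ℝ (E d)) (hH : finrank ℝ H = k) (r : ℝ) : Cylinder d k where
  H := H
  finrank_H := hH
  B := closedBall 0 r
  measurable_B := isClosed_closedBall.measurableSet.nullMeasurableSet

lemma crv_ballCyl (H : Submodule ℝ (E d)) (hH : finrank ℝ H = k) {r : ℝ} (hr : 0 ≤ r)
    (hkd : k < d) : (ballCyl H hH r).crv (closedBall 0 1) = ENNReal.ofReal (r ^ (d - k)) := by
  rw [Cylinder.crv_unitBall _ hkd]
  have hfr : finrank ℝ Hᗮ = d - k := finrank_orth H hH
  have hnt : Nontrivial Hᗮ := Module.nontrivial_of_finrank_pos (R := ℝ) (by omega)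
  have : volume (ballCyl H hH r).B = volume (closedBall (0 : Hᗮ) r) := rfl
  rw [this, Measure.addHaar_closedBall _ _ hr, volume_unit_ball (by omega) hfr, hfr]
  rw [ENNReal.mul_div_cancel_right]
  · simpa using w_pos (d - k)
  · exact ENNReal.ofReal_ne_top

/-- General covering bound: if `(1 - p)^N < η^d`, with `p` the cone proportion, then
`c ≤ N r^(d-k)`. -/
theorem general_cover (hk : 1 ≤ k) (hkd : k < d) {r η p : ℝ} (hη : 0 < η) (hη1 : η < 1)
    (hrη : 2 * η < r)
    (hp0 : 0 ≤ p)
    (hp : p ≤ (r - 2 * η) ^ (d - k) * (1 / √(1 + (r - 2 * η) ^ 2)) ^ d / lowerConst d k)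
    {N : ℕ} (hN : (1 - p) ^ N < η ^ d) {c : ℝ} (hc : Admissible d k c) :
    c ≤ N * r ^ (d - k) := by
  obtain ⟨I, hI⟩ : ∃ I : Finset (Fin d), I.card = d - k := by
    obtain ⟨I, -, hI⟩ := Finset.exists_subset_card_eq (s := (Finset.univ : Finset (Fin d)))
      (n := d - k) (by simp)
    exact ⟨I, hI⟩
  set H : Submodule ℝ (E d) := offSub I with hHdef
  have hH : finrank ℝ H = k := finrank_offSub I (by omega)
  have hr : 0 < r := by linarith
  have hcv := cone_volume H hH hk hkd (r := r - 2 * η) (by linarith)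
  have hB : (volume (ball (0 : E d) 1)).toReal = w d := by
    rw [volume_unit_ball (n := d) (by omega) (by simp), ENNReal.toReal_ofReal (w_pos d).le]
  have hwd := w_pos d
  have hwk := w_pos k
  have hwm := w_pos (d - k)
  have hk' : (0:ℝ) < k := by exact_mod_cast hk
  have hd' : (0:ℝ) < d := by exact_mod_cast (by omega : 0 < d)
  have hL := lowerConst_eq hk hkd
  have hLpos : 0 < lowerConst d k := by
    have h1 : 0 < lowerConst d k * (w (d - k) * (k * w k)) := by
      rw [hL]; positivity
    by_contra h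
    push Not at h
    have : lowerConst d k * (w (d - k) * (k * w k)) ≤ 0 :=
      mul_nonpos_of_nonpos_of_nonneg h (by positivity)
    linarith
  have hpv : p * (volume (ball (0 : E d) 1)).toReal ≤
      (volume (ball (0 : E d) 1 ∩ cone H (r - 2 * η))).toReal := by
    rw [hB]
    refine le_trans ?_ hcv
    calc p * w d ≤ (r - 2 * η) ^ (d - k) * (1 / √(1 + (r - 2 * η) ^ 2)) ^ d / lowerConst d k * w d :=
          mul_le_mul_of_nonneg_right hp hwd.le
      _ = w (d - k) * w k * (k / d) * (r - 2 * η) ^ (d - k) *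
          (1 / √(1 + (r - 2 * η) ^ 2)) ^ d := by
          have e : w d = lowerConst d k * (w (d - k) * (k * w k)) / d := by
            rw [hL]; field_simp
          rw [e]
          field_simp
  have hp1 : p ≤ 1 := by
    have h1 : (volume (ball (0 : E d) 1 ∩ cone H (r - 2 * η))).toReal ≤
        (volume (ball (0 : E d) 1)).toReal :=
      ENNReal.toReal_mono measure_ball_lt_top.ne (measure_mono Set.inter_subset_left)
    rw [hB] at h1 hpv
    have h2 : p * w d ≤ 1 * w d := by linarith
    exact le_of_mul_le_mul_right h2 hwd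
  obtain ⟨g, hg⟩ := exists_greedy (by omega) (measurableSet_cone H (r - 2 * η))
    (cone_smul H (r - 2 * η)) hp0 hp1 hpv N
  have hsmall : (volume {x ∈ ball (0 : E d) 1 | ∀ i, act (g i) x ∉ cone H (r - 2 * η)}).toReal <
      η ^ d * (volume (ball (0 : E d) 1)).toReal := by
    refine lt_of_le_of_lt hg ?_
    rw [hB]
    exact mul_lt_mul_of_pos_right hN hwd
  have hcov := cover_of_small (by omega) H hη hη1 hr hrη.le g hsmall
  let C : Fin N → Cylinder d k := fun i =>
    ballCyl (rotSub (g i) H) ((finrank_rotSub (g i) H).trans hH) r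
  have hcov' : closedBall (0 : E d) 1 ⊆ ⋃ i, (C i).toSet := by
    intro x hx
    obtain ⟨i, hi⟩ := hcov x hx
    refine mem_iUnion.2 ⟨i, ?_⟩
    rw [Cylinder.toSet_eq]
    change (rotSub (g i) H)ᗮ.orthogonalProjectionOnto x ∈ closedBall 0 r
    rwa [mem_closedBall_zero_iff]
  have h := hc _ isEllipsoid_ball N C hcov'
  have h2 : ∑ i : Fin N, (C i).crv (closedBall 0 1) = ENNReal.ofReal (N * r ^ (d - k)) := by
    rw [Finset.sum_congr rfl fun i _ => crv_ballCyl _ _ hr.le hkd]
    rw [Finset.sum_const, Finset.card_univ, Fintype.card_fin, nsmul_eq_mul,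
      ENNReal.ofReal_mul (by positivity), ENNReal.ofReal_natCast]
  rw [h2, ENNReal.ofReal_le_ofReal_iff (by positivity)] at h
  exact h

end Pool.Agent.MP15cfc2
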