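import Pool.Agent.Lib.MP_15cfc2_co.Affine

open MeasureTheory Set Metric Module
open scoped ENNReal Pointwise

namespace Pool.Agent.MP15cfc2

variable {d k : ℕ}

/-- The key real inequality on annuli: for `k ≥ 2` the section at squared height `t` of a spherical
shell is not larger than the section through the centre. -/
lemma annulus_ineq {a b ρ : ℝ} (hρ : 0 < ρ) (hρ1 : ρ < 1) (ha0 : 0 ≤ a) (ha1 : a ≤ 1)
    (hb0 : 0 ≤ b) (hbρ : b ≤ ρ) (hba : b ≤ ρ * a) (hab : a ^ 2 - b ^ 2 ≤ 1 - ρ ^ 2) :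
    ∀ k : ℕ, 2 ≤ k → a ^ k - b ^ k ≤ 1 - ρ ^ k := by
  have hbb : b * (a - b) ≤ ρ * (1 - ρ) := by
    have hab' : b ≤ a := hba.trans (by nlinarith)
    have h1 : b * (1 + ρ) ≤ ρ * (a + b) := by nlinarith
    have h2 : (a - b) * (b * (1 + ρ)) ≤ (a - b) * (ρ * (a + b)) :=
      mul_le_mul_of_nonneg_left h1 (by linarith)
    have h3 : (a - b) * (ρ * (a + b)) ≤ ρ * (1 - ρ ^ 2) := by nlinarith
    have h4 : b * (a - b) * (1 + ρ) ≤ ρ * (1 - ρ) * (1 + ρ) := by nlinarith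
    exact le_of_mul_le_mul_right h4 (by linarith)
  intro k hk
  induction k, hk using Nat.le_induction with
  | base => exact hab
  | succ n hn ih =>
    have e1 : a ^ (n + 1) - b ^ (n + 1) = a * (a ^ n - b ^ n) + b ^ n * (a - b) := by ring
    have hnn : b ^ n ≤ a ^ n := by
      apply pow_le_pow_left₀ hb0
      exact hba.trans (by nlinarith)
    have h1 : a * (a ^ n - b ^ n) ≤ 1 - ρ ^ n := by
      have : a * (a ^ n - b ^ n) ≤ 1 * (a ^ n - b ^ n) :=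
        mul_le_mul_of_nonneg_right ha1 (by linarith)
      linarith
    obtain ⟨m, rfl⟩ : ∃ m, n = m + 1 := ⟨n - 1, by omega⟩
    have h2 : b ^ (m + 1) * (a - b) ≤ ρ ^ (m + 1) * (1 - ρ) := by
      have e2 : b ^ (m + 1) * (a - b) = b ^ m * (b * (a - b)) := by ring
      have e3 : ρ ^ (m + 1) * (1 - ρ) = ρ ^ m * (ρ * (1 - ρ)) := by ring
      rw [e2, e3]
      have h5 : b ^ m ≤ ρ ^ m := pow_le_pow_left₀ hb0 hbρ m
      have h6 : 0 ≤ b ^ m := by positivity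
      have h7 : 0 ≤ ρ * (1 - ρ) := by nlinarith
      calc b ^ m * (b * (a - b)) ≤ b ^ m * (ρ * (1 - ρ)) := mul_le_mul_of_nonneg_left hbb h6
        _ ≤ ρ ^ m * (ρ * (1 - ρ)) := mul_le_mul_of_nonneg_right h5 h7
    rw [e1]
    have e4 : (1 : ℝ) - ρ ^ (m + 1 + 1) = (1 - ρ ^ (m + 1)) + ρ ^ (m + 1) * (1 - ρ) := by ring
    rw [e4]
    linarith

lemma annulus_ineq' {t ρ : ℝ} (hρ : 0 < ρ) (hρ1 : ρ < 1) (ht : 0 ≤ t) {k : ℕ} (hk : 2 ≤ k) :
    √(1 - t) ^ k - √(ρ ^ 2 - t) ^ k ≤ 1 - ρ ^ k := by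
  have hab : √(1 - t) ^ 2 - √(ρ ^ 2 - t) ^ 2 ≤ 1 - ρ ^ 2 := by
    rcases le_total t (ρ ^ 2) with h | h
    · rw [Real.sq_sqrt (by nlinarith), Real.sq_sqrt (by linarith)]
      linarith
    · rw [Real.sqrt_eq_zero'.2 (by linarith : ρ ^ 2 - t ≤ 0)]
      rcases le_total t 1 with h1 | h1
      · rw [Real.sq_sqrt (by linarith)]
        linarith
      · rw [Real.sqrt_eq_zero'.2 (by linarith : 1 - t ≤ 0)]
        nlinarith
  refine annulus_ineq hρ hρ1 (Real.sqrt_nonneg _) ?_ (Real.sqrt_nonneg _) ?_ ?_ hab k hk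
  · rw [Real.sqrt_le_left zero_le_one]
    linarith
  · rw [Real.sqrt_le_left hρ.le]
    linarith
  · have : ρ * √(1 - t) = √(ρ ^ 2 * (1 - t)) := by
      rw [Real.sqrt_mul (by positivity), Real.sqrt_sq hρ.le]
    rw [this]
    apply Real.sqrt_le_sqrt
    nlinarith [mul_nonneg ht (by nlinarith : (0:ℝ) ≤ 1 - ρ ^ 2)]

/-- the annulus section has small volume -/
lemma volume_section_le {V : Type*} [NormedAddCommGroup V] [InnerProductSpace ℝ V]
    [FiniteDimensional ℝ V] [MeasurableSpace V] [BorelSpace V]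
    (hV : 2 ≤ finrank ℝ V) {ρ : ℝ} (hρ : 0 < ρ) (hρ1 : ρ < 1) {t : ℝ} (ht : 0 ≤ t) :
    volume {z : V | ρ ^ 2 ≤ ‖z‖ ^ 2 + t ∧ ‖z‖ ^ 2 + t ≤ 1} ≤
      ENNReal.ofReal (1 - ρ ^ finrank ℝ V) * volume (ball (0 : V) 1) := by
  set a := √(1 - t) with ha
  set b := √(ρ ^ 2 - t) with hb
  have hba : b ≤ a := by
    apply Real.sqrt_le_sqrt
    nlinarith
  have hsub : {z : V | ρ ^ 2 ≤ ‖z‖ ^ 2 + t ∧ ‖z‖ ^ 2 + t ≤ 1} ⊆
      closedBall (0 : V) a \ ball (0 : V) b := by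
    rintro z ⟨h1, h2⟩
    refine ⟨?_, ?_⟩
    · rw [mem_closedBall_zero_iff]
      apply Real.le_sqrt_of_sq_le
      linarith
    · rw [mem_ball_zero_iff, not_lt]
      rw [hb, Real.sqrt_le_left (norm_nonneg _)]
      linarith
  refine (measure_mono hsub).trans ?_
  have hsub2 : ball (0 : V) b ⊆ closedBall (0 : V) a :=
    ball_subset_closedBall.trans (closedBall_subset_closedBall hba)
  have hnt : Nontrivial V := Module.nontrivial_of_finrank_pos (R := ℝ) (by omega)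
  rw [measure_sdiff hsub2 measurableSet_ball.nullMeasurableSet measure_ball_lt_top.ne]
  rw [Measure.addHaar_closedBall _ _ (Real.sqrt_nonneg _), Measure.addHaar_ball _ _ (Real.sqrt_nonneg _)]
  rw [← ENNReal.sub_mul (fun _ _ => measure_ball_lt_top.ne)]
  gcongr
  rw [← ENNReal.ofReal_sub _ (by positivity)]
  exact ENNReal.ofReal_le_ofReal (annulus_ineq' hρ hρ1 ht hV)

/-- A cylinder cuts out of the shell `ρ ≤ ‖x‖ ≤ 1` at most the volume of its base times the volume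
of the `k`-dimensional shell. -/
lemma volume_shell_inter_le (H : Submodule ℝ (E d)) (hH : 2 ≤ finrank ℝ H) {ρ : ℝ} (hρ : 0 < ρ)
    (hρ1 : ρ < 1) (B : Set Hᗮ) :
    volume {x : E d | (ρ ≤ ‖x‖ ∧ ‖x‖ ≤ 1) ∧ Hᗮ.orthogonalProjectionOnto x ∈ B} ≤
      volume B * (ENNReal.ofReal (1 - ρ ^ finrank ℝ H) * volume (ball (0 : H) 1)) := by
  set B' := toMeasurable volume B with hB'
  have hB'm : MeasurableSet B' := measurableSet_toMeasurable _ _
  have hBB' : B ⊆ B' := subset_toMeasurable _ _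
  let T : Set (H × Hᗮ) := {p | (ρ ^ 2 ≤ ‖p.1‖ ^ 2 + ‖p.2‖ ^ 2 ∧ ‖p.1‖ ^ 2 + ‖p.2‖ ^ 2 ≤ 1) ∧ p.2 ∈ B'}
  have hT : MeasurableSet T := by
    have m1 : Measurable fun p : H × Hᗮ => ‖p.1‖ ^ 2 + ‖p.2‖ ^ 2 := by fun_prop
    have h1 : MeasurableSet {p : H × Hᗮ | ρ ^ 2 ≤ ‖p.1‖ ^ 2 + ‖p.2‖ ^ 2} :=
      measurableSet_le measurable_const m1
    have h2 : MeasurableSet {p : H × Hᗮ | ‖p.1‖ ^ 2 + ‖p.2‖ ^ 2 ≤ 1} :=
      measurableSet_le m1 measurable_const
    exact (h1.inter h2).inter (measurable_snd hB'm)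
  have hsub : {x : E d | (ρ ≤ ‖x‖ ∧ ‖x‖ ≤ 1) ∧ Hᗮ.orthogonalProjectionOnto x ∈ B} ⊆
      (fun x : E d => (H.orthogonalProjectionOnto x, Hᗮ.orthogonalProjectionOnto x)) ⁻¹' T := by
    rintro x ⟨⟨h1, h2⟩, h3⟩
    refine ⟨⟨?_, ?_⟩, hBB' h3⟩
    · simp only
      rw [← norm_sq_split]
      gcongr
    · simp only
      rw [← norm_sq_split]
      nlinarith [norm_nonneg x]
  refine (measure_mono hsub).trans ?_
  rw [(measurePreserving_split H).measure_preimage hT.nullMeasurableSet]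
  rw [Measure.prod_apply_symm hT]
  have h1 : ∀ y : Hᗮ, volume ((fun z : H => (z, y)) ⁻¹' T) ≤
      B'.indicator (fun _ => ENNReal.ofReal (1 - ρ ^ finrank ℝ H) * volume (ball (0 : H) 1)) y := by
    intro y
    by_cases hy : y ∈ B'
    · rw [Set.indicator_of_mem hy]
      refine (measure_mono ?_).trans (volume_section_le hH hρ hρ1 (sq_nonneg ‖y‖))
      rintro z ⟨hz, -⟩
      exact hz
    · rw [Set.indicator_of_notMem hy]
      have : (fun z : H => (z, y)) ⁻¹' T = ∅ := by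
        ext z
        simp [T, hy]
      rw [this]
      simp
  refine (lintegral_mono h1).trans ?_
  rw [lintegral_indicator hB'm, lintegral_const, Measure.restrict_apply_univ, mul_comm]
  rw [hB', measure_toMeasurable]

end Pool.Agent.MP15cfc2
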