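import Pool.Agent.Lib.MP_15cfc2_co.Lower

open MeasureTheory Set Metric Module Filter
open scoped ENNReal Pointwise Topology

namespace Pool.Agent.MP15cfc2

variable {d k : ℕ}

/-- volume of the unit ball of dimension `n` -/
noncomputable def w (n : ℕ) : ℝ := √Real.pi ^ n / Real.Gamma (n / 2 + 1)

lemma w_pos (n : ℕ) : 0 < w n := by
  unfold w
  have : 0 < Real.Gamma ((n : ℝ) / 2 + 1) := Real.Gamma_pos_of_pos (by positivity)
  positivity

lemma volume_unit_ball {V : Type*} [NormedAddCommGroup V] [InnerProductSpace ℝ V]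
    [FiniteDimensional ℝ V] [MeasurableSpace V] [BorelSpace V] {n : ℕ} (hn : 1 ≤ n)
    (hV : finrank ℝ V = n) : volume (ball (0 : V) 1) = ENNReal.ofReal (w n) := by
  have hnt : Nontrivial V := Module.nontrivial_of_finrank_pos (R := ℝ) (by omega)
  rw [InnerProductSpace.volume_ball, hV]
  simp [w]

lemma volume_unit_closedBall {V : Type*} [NormedAddCommGroup V] [InnerProductSpace ℝ V]
    [FiniteDimensional ℝ V] [MeasurableSpace V] [BorelSpace V] {n : ℕ} (hn : 1 ≤ n)
    (hV : finrank ℝ V = n) : volume (closedBall (0 : V) 1) = ENNReal.ofReal (w n) := by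
  have hnt : Nontrivial V := Module.nontrivial_of_finrank_pos (R := ℝ) (by omega)
  rw [Measure.addHaar_closedBall_eq_addHaar_ball]
  exact volume_unit_ball hn hV

/-- cross-sectional volume relative to the unit ball -/
lemma Cylinder.crv_unitBall (C : Cylinder d k) (hkd : k < d) :
    C.crv (closedBall 0 1) = volume C.B / ENNReal.ofReal (w (d - k)) := by
  unfold Cylinder.crv
  rw [proj_image_closedBall, volume_unit_closedBall (n := d - k) (by omega)
    (finrank_orth C.H C.finrank_H)]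

lemma volume_shell {ρ : ℝ} (hρ : 0 < ρ) (hρ1 : ρ < 1) (hd : 1 ≤ d) :
    volume {x : E d | ρ ≤ ‖x‖ ∧ ‖x‖ ≤ 1} = ENNReal.ofReal ((1 - ρ ^ d) * w d) := by
  have h1 : {x : E d | ρ ≤ ‖x‖ ∧ ‖x‖ ≤ 1} = closedBall (0 : E d) 1 \ ball (0 : E d) ρ := by
    ext x
    simp [and_comm]
  have hnt : Nontrivial (E d) := Module.nontrivial_of_finrank_pos (R := ℝ) (by simp; omega)
  have hsub2 : ball (0 : E d) ρ ⊆ closedBall (0 : E d) 1 :=
    ball_subset_closedBall.trans (closedBall_subset_closedBall hρ1.le)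
  rw [h1, measure_sdiff hsub2 measurableSet_ball.nullMeasurableSet measure_ball_lt_top.ne]
  rw [Measure.addHaar_closedBall _ _ zero_le_one, Measure.addHaar_ball _ _ hρ.le]
  rw [volume_unit_ball hd (by simp)]
  rw [finrank_euclideanSpace_fin]
  rw [← ENNReal.ofReal_mul (by positivity), ← ENNReal.ofReal_mul (by positivity),
    ← ENNReal.ofReal_sub _ (mul_nonneg (by positivity) (w_pos d).le)]
  congr 1
  ring

/-- The inequality obtained from one shell. -/
lemma shell_bound (hk : 2 ≤ k) (hkd : k < d) {N : ℕ} (C : Fin N → Cylinder d k)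
    (hC : closedBall (0 : E d) 1 ⊆ ⋃ i, (C i).toSet) {ρ : ℝ} (hρ : 0 < ρ) (hρ1 : ρ < 1) :
    ENNReal.ofReal ((1 - ρ ^ d) * w d) ≤
      (∑ i, (C i).crv (closedBall 0 1)) * ENNReal.ofReal (w (d - k) * ((1 - ρ ^ k) * w k)) := by
  have hρk : 0 ≤ 1 - ρ ^ k := by
    have := pow_le_one₀ hρ.le hρ1.le (n := k)
    linarith
  rw [← volume_shell hρ hρ1 (by omega)]
  have h1 : {x : E d | ρ ≤ ‖x‖ ∧ ‖x‖ ≤ 1} ⊆
      ⋃ i, {x : E d | (ρ ≤ ‖x‖ ∧ ‖x‖ ≤ 1) ∧ (C i).Hᗮ.orthogonalProjectionOnto x ∈ (C i).B} := by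
    intro x hx
    have hx' : x ∈ closedBall (0 : E d) 1 := by
      rw [mem_closedBall_zero_iff]
      exact hx.2
    obtain ⟨i, hi⟩ := mem_iUnion.1 (hC hx')
    rw [Cylinder.toSet_eq] at hi
    exact mem_iUnion.2 ⟨i, hx, hi⟩
  refine (measure_mono h1).trans ((measure_iUnion_fintype_le _ _).trans ?_)
  rw [Finset.sum_mul]
  apply Finset.sum_le_sum
  intro i _
  refine (volume_shell_inter_le (C i).H (by rw [(C i).finrank_H]; exact hk) hρ hρ1 (C i).B).trans ?_
  rw [(C i).finrank_H, volume_unit_ball (n := k) (by omega) (C i).finrank_H,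
    Cylinder.crv_unitBall _ hkd]
  rw [ENNReal.ofReal_mul (w_pos _).le, ENNReal.ofReal_mul hρk, ← mul_assoc]
  rw [← mul_assoc (volume (C i).B / ENNReal.ofReal (w (d - k))), ENNReal.div_mul_cancel,
    mul_assoc]
  · simpa using w_pos (d - k)
  · exact ENNReal.ofReal_ne_top

/-- The constant of the lower bound: the reciprocal of the generalised binomial coefficient
`binom (d/2 - 1) (k/2 - 1)`. -/
noncomputable def lowerConst (d k : ℕ) : ℝ :=
  Real.Gamma (k / 2) * Real.Gamma ((d - k) / 2 + 1) / Real.Gamma (d / 2)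

lemma lowerConst_eq (hk : 1 ≤ k) (hkd : k < d) :
    lowerConst d k * (w (d - k) * (k * w k)) = d * w d := by
  unfold lowerConst w
  have hd0 : (0:ℝ) < (d:ℝ) / 2 := by
    have : (0:ℝ) < d := by exact_mod_cast (by omega : 0 < d)
    linarith
  have hk0 : (0:ℝ) < (k:ℝ) / 2 := by
    have : (0:ℝ) < k := by exact_mod_cast (by omega : 0 < k)
    linarith
  rw [Real.Gamma_add_one hd0.ne', Real.Gamma_add_one hk0.ne']
  have hcast : ((d - k : ℕ) : ℝ) = (d : ℝ) - k := by
    rw [Nat.cast_sub hkd.le]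
  rw [hcast]
  have g1 : 0 < Real.Gamma ((d:ℝ) / 2) := Real.Gamma_pos_of_pos hd0
  have g2 : 0 < Real.Gamma ((k:ℝ) / 2) := Real.Gamma_pos_of_pos hk0
  have g3 : 0 < Real.Gamma (((d:ℝ) - k) / 2 + 1) := by
    apply Real.Gamma_pos_of_pos
    have : (k:ℝ) < d := by exact_mod_cast hkd
    linarith
  have hp : √Real.pi ^ d = √Real.pi ^ (d - k) * √Real.pi ^ k := by
    rw [← pow_add]
    congr 1
    omega
  rw [hp]
  have hd1 : (d:ℝ) ≠ 0 := by linarith
  have hk1 : (k:ℝ) ≠ 0 := by linarith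
  generalize Real.Gamma (((d:ℝ) - k) / 2 + 1) = G3 at *
  generalize Real.Gamma ((d:ℝ) / 2) = G1 at *
  generalize Real.Gamma ((k:ℝ) / 2) = G2 at *
  field_simp

theorem lower_bound_ball (hk : 2 ≤ k) (hkd : k < d) {N : ℕ} (C : Fin N → Cylinder d k)
    (hC : closedBall (0 : E d) 1 ⊆ ⋃ i, (C i).toSet) :
    ENNReal.ofReal (lowerConst d k) ≤ ∑ i, (C i).crv (closedBall 0 1) := by
  set X := ∑ i, (C i).crv (closedBall 0 1) with hX
  by_cases hXt : X = ∞
  · rw [hXt]; exact le_top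
  set x := X.toReal with hx
  have hXx : X = ENNReal.ofReal x := (ENNReal.ofReal_toReal hXt).symm
  have hx0 : 0 ≤ x := ENNReal.toReal_nonneg
  have key : ∀ ρ : ℝ, ρ ∈ Ioo (0:ℝ) 1 →
      (∑ i ∈ Finset.range d, ρ ^ i) * w d ≤
        x * (w (d - k) * ((∑ i ∈ Finset.range k, ρ ^ i) * w k)) := by
    rintro ρ ⟨hρ, hρ1⟩
    have h1 := shell_bound hk hkd C hC hρ hρ1
    rw [← hX, hXx, ← ENNReal.ofReal_mul hx0, ENNReal.ofReal_le_ofReal_iff] at h1
    · rw [← mul_neg_geom_sum, ← mul_neg_geom_sum] at h1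
      have h2 : (1 - ρ) * ((∑ i ∈ Finset.range d, ρ ^ i) * w d) ≤ (1 - ρ) *
          (x * (w (d - k) * ((∑ i ∈ Finset.range k, ρ ^ i) * w k))) := by
        calc _ = (1 - ρ) * (∑ i ∈ Finset.range d, ρ ^ i) * w d := by ring
          _ ≤ _ := h1
          _ = _ := by ring
      exact le_of_mul_le_mul_left h2 (by linarith)
    · have : 0 ≤ 1 - ρ ^ k := by
        have := pow_le_one₀ hρ.le hρ1.le (n := k)
        linarith
      have h3 := (w_pos k).le
      have h4 := (w_pos (d - k)).le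
      positivity
  have hlim : (∑ i ∈ Finset.range d, (1:ℝ) ^ i) * w d ≤
      x * (w (d - k) * ((∑ i ∈ Finset.range k, (1:ℝ) ^ i) * w k)) := by
    have c1 : Continuous fun ρ : ℝ => (∑ i ∈ Finset.range d, ρ ^ i) * w d := by fun_prop
    have c2 : Continuous fun ρ : ℝ => x * (w (d - k) * ((∑ i ∈ Finset.range k, ρ ^ i) * w k)) := by
      fun_prop
    have hne : (𝓝[Ioo (0:ℝ) 1] (1:ℝ)).NeBot := by
      rw [← mem_closure_iff_nhdsWithin_neBot, closure_Ioo (by norm_num)]
      simp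
    refine le_of_tendsto_of_tendsto (c1.continuousWithinAt (s := Ioo (0:ℝ) 1) (x := 1))
      (c2.continuousWithinAt (s := Ioo (0:ℝ) 1) (x := 1)) ?_
    filter_upwards [self_mem_nhdsWithin] with ρ hρ
    exact key ρ hρ
  simp only [one_pow, Finset.sum_const, Finset.card_range, nsmul_eq_mul, mul_one] at hlim
  rw [hXx]
  apply ENNReal.ofReal_le_ofReal
  rw [← lowerConst_eq (by omega) hkd] at hlim
  have h5 : 0 < w (d - k) * (k * w k) := by
    have h3 := (w_pos k)
    have h4 := (w_pos (d - k))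
    have : (0:ℝ) < k := by exact_mod_cast (by omega : 0 < k)
    positivity
  exact le_of_mul_le_mul_right hlim h5

/-- Reduction from ellipsoids to the unit ball. -/
theorem admissible_of_ball {c : ℝ}
    (h : ∀ (N : ℕ) (C : Fin N → Cylinder d k), closedBall (0 : E d) 1 ⊆ ⋃ i, (C i).toSet →
      ENNReal.ofReal c ≤ ∑ i, (C i).crv (closedBall 0 1)) : Admissible d k c := by
  rintro K ⟨f, rfl⟩ N C hC
  choose C' h1 h2 using fun i => exists_pullback (C i) f
  have hcov : closedBall (0 : E d) 1 ⊆ ⋃ i, (C' i).toSet := by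
    intro x hx
    obtain ⟨i, hi⟩ := mem_iUnion.1 (hC ⟨x, hx, rfl⟩)
    refine mem_iUnion.2 ⟨i, ?_⟩
    rw [h1 i]
    exact hi
  have := h N C' hcov
  simpa only [h2] using this

theorem lower_bound (hk : 2 ≤ k) (hkd : k < d) : Admissible d k (lowerConst d k) :=
  admissible_of_ball fun _ C hC => lower_bound_ball hk hkd C hC

end Pool.Agent.MP15cfc2
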