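import Pool.Agent.Lib.MP_15cfc2_co.Upper

open MeasureTheory Set Metric Module Filter
open scoped ENNReal Pointwise Topology

namespace Pool.Agent.MP15cfc2

noncomputable section

/-- The orthogonal group of `𝔼^d`, as the unitary group of the algebra of operators. -/
abbrev G (d : ℕ) := unitary (E d →L[ℝ] E d)

variable {d : ℕ}

instance : ContinuousStar (E d →L[ℝ] E d) :=
  ⟨(ContinuousLinearMap.adjoint (𝕜 := ℝ) (E := E d) (F := E d)).continuous⟩

lemma isCompact_unitary : IsCompact (unitary (E d →L[ℝ] E d) : Set (E d →L[ℝ] E d)) := by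
  apply Metric.isCompact_of_isClosed_isBounded
  · have h : (unitary (E d →L[ℝ] E d) : Set (E d →L[ℝ] E d)) =
        {A | star A * A = 1} ∩ {A | A * star A = 1} := by
      ext A
      simp [Unitary.mem_iff]
    rw [h]
    apply IsClosed.inter
    · exact isClosed_eq (by fun_prop) continuous_const
    · exact isClosed_eq (by fun_prop) continuous_const
  · rw [isBounded_iff_forall_norm_le]
    refine ⟨1, fun A hA => ?_⟩
    apply ContinuousLinearMap.opNorm_le_bound _ zero_le_one
    intro x
    rw [ContinuousLinearMap.norm_map_of_mem_unitary hA, one_mul]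

instance : CompactSpace (G d) := isCompact_iff_compactSpace.1 isCompact_unitary

instance : MeasurableSpace (G d) := borel _
instance : BorelSpace (G d) := ⟨rfl⟩

instance : SecondCountableTopology (G d) := by
  have : ProperSpace (E d →L[ℝ] E d) := FiniteDimensional.proper ℝ _
  infer_instance

/-- normalised Haar measure on the orthogonal group -/
def haarG (d : ℕ) : Measure (G d) := Measure.haarMeasure ⊤

instance : IsProbabilityMeasure (haarG d) := ⟨by
  have := Measure.haarMeasure_self (K₀ := (⊤ : TopologicalSpace.PositiveCompacts (G d)))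
  simpa [haarG] using this⟩

instance : (haarG d).IsMulLeftInvariant := by
  unfold haarG; infer_instance

/-- The action -/
lemma continuous_act : Continuous fun p : G d × E d => ((p.1⁻¹ : G d) : E d →L[ℝ] E d) p.2 := by
  have h1 : Continuous fun p : G d × E d => ((p.1⁻¹ : G d) : E d →L[ℝ] E d) := by fun_prop
  exact h1.clm_apply continuous_snd

lemma norm_act (g : G d) (x : E d) : ‖(g : E d →L[ℝ] E d) x‖ = ‖x‖ := Unitary.norm_map g x

/-- transitivity on spheres -/
lemma exists_act {x y : E d} (h : ‖x‖ = ‖y‖) : ∃ g : G d, (g : E d →L[ℝ] E d) x = y := by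
  let f : E d ≃ₗᵢ[ℝ] E d := (ℝ ∙ (x - y))ᗮ.reflection
  refine ⟨Unitary.linearIsometryEquiv.symm f, ?_⟩
  have h1 : f x = y := Submodule.reflection_sub h
  rw [← h1]
  have := Unitary.coe_linearIsometryEquiv_apply (Unitary.linearIsometryEquiv.symm f)
  rw [MulEquiv.apply_symm_apply] at this
  rw [← this]
  rfl

end

end Pool.Agent.MP15cfc2
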