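import Pool.Agent.Lib.MP_15cfc2_co.Coord

open MeasureTheory Set Metric Module Filter
open scoped ENNReal Pointwise Topology

namespace Pool.Agent.MP15cfc2

variable {d k : ℕ}

lemma card_filter_fin (S : Finset ℕ) (hS : ∀ x ∈ S, x < d) :
    (Finset.univ.filter fun c : Fin d => (c : ℕ) ∈ S).card = S.card := by
  have : (Finset.univ.filter fun c : Fin d => (c : ℕ) ∈ S).map Fin.valEmbedding = S := by
    ext x
    simp only [Finset.mem_map, Finset.mem_filter, Finset.mem_univ, true_and, Fin.valEmbedding_apply]
    constructor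
    · rintro ⟨c, hc, rfl⟩; exact hc
    · intro hx; exact ⟨⟨x, hS x hx⟩, hx, rfl⟩
  rw [← this, Finset.card_map]
  simp [this]

/-- The `i`-th coordinate set: the common coordinates `c < s` and the `i`-th block of length `j`. -/
def blockSet (d s j i : ℕ) : Finset (Fin d) :=
  Finset.univ.filter fun c => (c : ℕ) ∈ Finset.range s ∪ Finset.Ico (s + i * j) (s + (i + 1) * j)

lemma mem_blockSet {s j i : ℕ} {c : Fin d} :
    c ∈ blockSet d s j i ↔ (c : ℕ) < s ∨ (s + i * j ≤ c ∧ (c : ℕ) < s + (i + 1) * j) := by
  simp [blockSet]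

lemma card_blockSet {s j i : ℕ} (h : s + (i + 1) * j ≤ d) : (blockSet d s j i).card = s + j := by
  unfold blockSet
  rw [card_filter_fin]
  · rw [Finset.card_union_of_disjoint]
    · rw [Finset.card_range, Nat.card_Ico]
      have : (i + 1) * j = i * j + j := by ring
      omega
    · rw [Finset.disjoint_left]
      intro x hx hx'
      rw [Finset.mem_range] at hx
      rw [Finset.mem_Ico] at hx'
      omega
  · intro x hx
    rw [Finset.mem_union, Finset.mem_range, Finset.mem_Ico] at hx
    have : s ≤ s + (i + 1) * j := Nat.le_add_right _ _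
    omega

/-- weights -/
noncomputable def wt (s N c : ℕ) : ℝ := if c < s then 1 else N

lemma wt_pos {s N c : ℕ} (hN : 1 ≤ N) : 0 < wt s N c := by
  unfold wt
  split_ifs
  · exact one_pos
  · exact_mod_cast hN

lemma prod_wt {s j i N : ℕ} (h : s + (i + 1) * j ≤ d) :
    ∏ c : blockSet d s j i, wt s N (c : Fin d) = (N : ℝ) ^ j := by
  rw [Finset.prod_coe_sort (blockSet d s j i) (fun c => wt s N (c : ℕ))]
  have hsplit : blockSet d s j i =
      (Finset.univ.filter fun c : Fin d => (c : ℕ) ∈ Finset.range s) ∪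
      (Finset.univ.filter fun c : Fin d => (c : ℕ) ∈ Finset.Ico (s + i * j) (s + (i + 1) * j)) := by
    ext c
    simp [blockSet]
  have hdisj : Disjoint (Finset.univ.filter fun c : Fin d => (c : ℕ) ∈ Finset.range s)
      (Finset.univ.filter fun c : Fin d => (c : ℕ) ∈ Finset.Ico (s + i * j) (s + (i + 1) * j)) := by
    rw [Finset.disjoint_left]
    intro x hx hx'
    simp only [Finset.mem_filter, Finset.mem_univ, true_and, Finset.mem_range] at hx
    simp only [Finset.mem_filter, Finset.mem_univ, true_and, Finset.mem_Ico] at hx'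
    omega
  rw [hsplit, Finset.prod_union hdisj]
  have h1 : ∏ c ∈ (Finset.univ.filter fun c : Fin d => (c : ℕ) ∈ Finset.range s),
      wt s N (c : ℕ) = 1 := by
    apply Finset.prod_eq_one
    intro c hc
    simp only [Finset.mem_filter, Finset.mem_univ, true_and, Finset.mem_range] at hc
    simp [wt, hc]
  have h2 : ∏ c ∈ (Finset.univ.filter fun c : Fin d =>
      (c : ℕ) ∈ Finset.Ico (s + i * j) (s + (i + 1) * j)), wt s N (c : ℕ) = (N : ℝ) ^ j := by
    rw [Finset.prod_congr rfl (g := fun _ => (N : ℝ))]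
    · rw [Finset.prod_const, card_filter_fin]
      · rw [Nat.card_Ico]
        congr 1
        have : (i + 1) * j = i * j + j := by ring
        omega
      · intro x hx
        rw [Finset.mem_Ico] at hx
        omega
    · intro c hc
      simp only [Finset.mem_filter, Finset.mem_univ, true_and, Finset.mem_Ico] at hc
      have : ¬ ((c : ℕ) < s) := by omega
      simp [wt, this]
  rw [h1, h2, one_mul]

/-- The `i`-th cylinder of the covering. -/
noncomputable def coverCyl (d k s j N i : ℕ) (hd : s + j + k = d) (hi : s + (i + 1) * j ≤ d) :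
    Cylinder d k where
  H := offSub (blockSet d s j i)
  finrank_H := finrank_offSub _ (by rw [card_blockSet hi]; exact hd)
  B := (cbasis (blockSet d s j i)).repr ⁻¹' diagSet fun c => wt s N (c : Fin d)
  measurable_B := by
    apply MeasurableSet.nullMeasurableSet
    apply (cbasis (blockSet d s j i)).repr.continuous.measurable
    apply IsClosed.measurableSet
    apply isClosed_le
    · fun_prop
    · fun_prop

lemma crv_coverCyl {s j N i : ℕ} (hd : s + j + k = d) (hj : 1 ≤ j)
    (hi : s + (i + 1) * j ≤ d) (hN : 1 ≤ N) :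
    (coverCyl d k s j N i hd hi).crv (closedBall 0 1) = ENNReal.ofReal (√((N : ℝ) ^ j))⁻¹ := by
  rw [Cylinder.crv_unitBall _ (by omega)]
  have h1 : volume (coverCyl d k s j N i hd hi).B
      = volume (diagSet fun c : blockSet d s j i => wt s N (c : Fin d)) := by
    have := (cbasis (blockSet d s j i)).measurePreserving_repr.measure_preimage
      (s := diagSet fun c : blockSet d s j i => wt s N (c : Fin d))
      (by
        apply MeasurableSet.nullMeasurableSet
        apply IsClosed.measurableSet
        apply isClosed_le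
        · fun_prop
        · fun_prop)
    exact this
  rw [h1, volume_diagSet _ (fun c => wt_pos hN), prod_wt hi]
  have h2 : volume (closedBall (0 : EuclideanSpace ℝ (blockSet d s j i)) 1)
      = ENNReal.ofReal (w (d - k)) := by
    apply volume_unit_closedBall (by omega)
    rw [finrank_euclideanSpace, Fintype.card_coe, card_blockSet hi]
    omega
  rw [h2]
  rw [ENNReal.mul_div_cancel_right]
  · simpa using w_pos (d - k)
  · exact ENNReal.ofReal_ne_top

lemma cover {s j N : ℕ} (hd : s + j + k = d) (hN : 1 ≤ N)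
    (hi : ∀ i : Fin N, s + ((i : ℕ) + 1) * j ≤ d) :
    closedBall (0 : E d) 1 ⊆ ⋃ i : Fin N, (coverCyl d k s j N i hd (hi i)).toSet := by
  intro x hx
  by_contra hcon
  rw [mem_iUnion, not_exists] at hcon
  have h1 : ∀ i : Fin N, 1 < ∑ c ∈ blockSet d s j i, wt s N (c : ℕ) * x c ^ 2 := by
    intro i
    have h2 := hcon i
    rw [Cylinder.toSet_eq] at h2
    have h2' : ¬ (∑ c : blockSet d s j i, wt s N (c : Fin d) *
        ((cbasis (blockSet d s j i)).repr
          ((offSub (blockSet d s j i))ᗮ.orthogonalProjectionOnto x)) c ^ 2 ≤ 1) := h2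
    rw [not_le] at h2'
    refine lt_of_lt_of_eq h2' ?_
    rw [← Finset.sum_coe_sort (blockSet d s j i) (fun c => wt s N (c : ℕ) * x c ^ 2)]
    apply Finset.sum_congr rfl
    intro c _
    rw [cbasis_repr, proj_coord _ _ _ c.2]
  have h3 : (N : ℝ) < ∑ i : Fin N, ∑ c ∈ blockSet d s j i, wt s N (c : ℕ) * x c ^ 2 := by
    have : (N : ℝ) = ∑ i : Fin N, (1 : ℝ) := by simp
    rw [this]
    have hne : (Finset.univ : Finset (Fin N)).Nonempty := ⟨⟨0, by omega⟩, Finset.mem_univ _⟩
    exact Finset.sum_lt_sum_of_nonempty hne fun i _ => h1 i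
  have h4 : ∑ i : Fin N, ∑ c ∈ blockSet d s j i, wt s N (c : ℕ) * x c ^ 2 =
      ∑ c : Fin d, (∑ i : Fin N, if c ∈ blockSet d s j i then wt s N (c : ℕ) else 0) * x c ^ 2 := by
    simp_rw [Finset.sum_mul]
    rw [Finset.sum_comm]
    apply Finset.sum_congr rfl
    intro i _
    rw [← Finset.sum_filter_add_sum_filter_not Finset.univ (fun c => c ∈ blockSet d s j i)]
    have e1 : ∑ c ∈ Finset.univ.filter (fun c => c ∉ blockSet d s j i),
        (if c ∈ blockSet d s j i then wt s N (c : ℕ) else 0) * x c ^ 2 = 0 := by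
      apply Finset.sum_eq_zero
      intro c hc
      rw [Finset.mem_filter] at hc
      simp [hc.2]
    rw [e1, add_zero]
    have e2 : Finset.univ.filter (fun c => c ∈ blockSet d s j i) = blockSet d s j i := by
      ext c; simp
    rw [e2]
    apply Finset.sum_congr rfl
    intro c hc
    simp [hc]
  have h5 : ∀ c : Fin d,
      (∑ i : Fin N, if c ∈ blockSet d s j i then wt s N (c : ℕ) else 0) ≤ N := by
    intro c
    by_cases hcs : (c : ℕ) < s
    · calc (∑ i : Fin N, if c ∈ blockSet d s j i then wt s N (c : ℕ) else 0)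
          ≤ ∑ i : Fin N, (1 : ℝ) := by
            apply Finset.sum_le_sum
            intro i _
            simp only [wt, hcs, if_true]
            split_ifs <;> norm_num
        _ = N := by simp
    · -- at most one block contains `c`
      by_cases hex : ∃ i : Fin N, c ∈ blockSet d s j i
      · obtain ⟨i₀, hi₀⟩ := hex
        rw [Finset.sum_eq_single i₀]
        · rw [if_pos hi₀]
          simp [wt, hcs]
        · intro i _ hne
          rw [if_neg]
          intro hi'
          apply hne
          rw [mem_blockSet] at hi₀ hi'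
          have a1 := hi₀.resolve_left hcs
          have a2 := hi'.resolve_left hcs
          apply Fin.ext
          by_contra hne'
          rcases Nat.lt_or_gt_of_ne hne' with hlt | hlt
          · have : ((i : ℕ) + 1) * j ≤ i₀ * j := Nat.mul_le_mul_right _ hlt
            omega
          · have : ((i₀ : ℕ) + 1) * j ≤ i * j := Nat.mul_le_mul_right _ hlt
            omega
        · intro h; exact absurd (Finset.mem_univ _) h
      · push Not at hex
        have : (∑ i : Fin N, if c ∈ blockSet d s j i then wt s N (c : ℕ) else 0) = 0 := by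
          apply Finset.sum_eq_zero
          intro i _
          rw [if_neg (hex i)]
        rw [this]
        positivity
  have h6 : ∑ c : Fin d, (∑ i : Fin N, if c ∈ blockSet d s j i then wt s N (c : ℕ) else 0)
      * x c ^ 2 ≤ N * ‖x‖ ^ 2 := by
    rw [EuclideanSpace.norm_sq_eq, Finset.mul_sum]
    apply Finset.sum_le_sum
    intro c _
    rw [Real.norm_eq_abs, sq_abs]
    exact mul_le_mul_of_nonneg_right (h5 c) (sq_nonneg _)
  rw [mem_closedBall_zero_iff] at hx
  have h7 : (N : ℝ) * ‖x‖ ^ 2 ≤ N * 1 := by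
    apply mul_le_mul_of_nonneg_left _ (by positivity)
    nlinarith [norm_nonneg x]
  linarith

theorem isEllipsoid_ball : IsEllipsoid (closedBall (0 : E d) 1) :=
  ⟨AffineEquiv.refl ℝ (E d), by simp⟩

/-- Upper bound from a block covering. -/
theorem upper_bound_aux {s j N : ℕ} (hd : s + j + k = d) (hj : 1 ≤ j) (hN : 1 ≤ N)
    (hNd : s + N * j ≤ d) {c : ℝ} (hc : Admissible d k c) : c ≤ N * (√((N : ℝ) ^ j))⁻¹ := by
  have hi : ∀ i : Fin N, s + ((i : ℕ) + 1) * j ≤ d := by
    intro i
    have : ((i : ℕ) + 1) * j ≤ N * j := Nat.mul_le_mul_right _ (by omega)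
    omega
  have h := hc _ isEllipsoid_ball N (fun i => coverCyl d k s j N i hd (hi i)) (cover hd hN hi)
  have h2 : ∑ i : Fin N, (coverCyl d k s j N i hd (hi i)).crv (closedBall 0 1)
      = ENNReal.ofReal (N * (√((N : ℝ) ^ j))⁻¹) := by
    rw [Finset.sum_congr rfl fun i _ => crv_coverCyl hd hj (hi i) hN]
    rw [Finset.sum_const, Finset.card_univ, Fintype.card_fin, nsmul_eq_mul,
      ENNReal.ofReal_mul (by positivity), ENNReal.ofReal_natCast]
  rw [h2, ENNReal.ofReal_le_ofReal_iff (by positivity)] at h
  exact h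

/-- `c(d,k) ≤ (1 + ⌊k/j⌋)^(1 - j/2)` for `1 ≤ j ≤ d - k`. -/
theorem upper_bound {j : ℕ} (hj : 1 ≤ j) (hjd : j + k ≤ d) {c : ℝ}
    (hc : Admissible d k c) : c ≤ (1 + (k / j : ℕ) : ℝ) ^ (1 - (j : ℝ) / 2) := by
  obtain ⟨s, hs⟩ : ∃ s, s + j + k = d := ⟨d - k - j, by omega⟩
  have hNd : s + (1 + k / j) * j ≤ d := by
    have : k / j * j ≤ k := Nat.div_mul_le_self k j
    have e : (1 + k / j) * j = j + k / j * j := by ring
    omega
  have h := upper_bound_aux hs hj (Nat.le_add_right 1 _) hNd hc
  refine h.trans (le_of_eq ?_)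
  push_cast
  set N : ℝ := 1 + ((k / j : ℕ) : ℝ) with hN
  have hNpos : 0 < N := by positivity
  rw [Real.sqrt_eq_rpow, ← Real.rpow_natCast, ← Real.rpow_mul hNpos.le, ← Real.rpow_neg hNpos.le]
  nth_rewrite 1 [← Real.rpow_one N]
  rw [← Real.rpow_add hNpos]
  congr 1
  ring

end Pool.Agent.MP15cfc2
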